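import Mathlib

/-!
# Square-summable sequences, convolution and shifts
-/

set_option autoImplicit false

namespace Pool.Agent.V5helper91.BR

open scoped InnerProductSpace ComplexConjugate
open Finset Filter

noncomputable section

/-- the Hilbert space of the square-summable sequences -/
abbrev E : Type := lp (fun _ : ℕ => ℂ) 2

/-- convolution -/
def cv (x y : ℕ → ℂ) (n : ℕ) : ℂ := ∑ k ∈ range (n + 1), x k * y (n - k)

theorem cv_eq (x y : ℕ → ℂ) (n : ℕ) :
    cv x y n = PowerSeries.coeff n (PowerSeries.mk x * PowerSeries.mk y) := by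
  rw [PowerSeries.coeff_mul, Finset.Nat.sum_antidiagonal_eq_sum_range_succ_mk]
  simp [cv]

theorem mk_cv (x y : ℕ → ℂ) :
    PowerSeries.mk (cv x y) = PowerSeries.mk x * PowerSeries.mk y := by
  ext n; rw [PowerSeries.coeff_mk, cv_eq]

theorem cv_comm (x y : ℕ → ℂ) : cv x y = cv y x := by
  ext n; rw [cv_eq, cv_eq, mul_comm]

theorem cv_assoc (x y z : ℕ → ℂ) : cv (cv x y) z = cv x (cv y z) := by
  ext n; rw [cv_eq, cv_eq, mk_cv, mk_cv, mul_assoc]

theorem hasSum_sq (x : E) : HasSum (fun n => ‖x n‖ ^ 2) (‖x‖ ^ 2) := by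
  have h := lp.hasSum_norm (p := 2) (by norm_num) x
  simpa using h

theorem summable_sq (x : E) : Summable (fun n => ‖x n‖ ^ 2) := (hasSum_sq x).summable

theorem memLp {g : ℕ → ℂ} (h : Summable (fun n => ‖g n‖ ^ 2)) :
    Memℓp (E := fun _ : ℕ => ℂ) g 2 := by
  refine memℓp_gen ?_
  simpa using h

/-- the element of `E` given by a sequence -/
def mkE (g : ℕ → ℂ) (h : Summable (fun n => ‖g n‖ ^ 2)) : E := ⟨g, memLp h⟩

@[simp] theorem mkE_apply (g : ℕ → ℂ) (h : Summable (fun n => ‖g n‖ ^ 2)) (n : ℕ) :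
    mkE g h n = g n := rfl

theorem norm_mkE (g : ℕ → ℂ) (h : Summable (fun n => ‖g n‖ ^ 2)) :
    ‖mkE g h‖ ^ 2 = ∑' n, ‖g n‖ ^ 2 := (hasSum_sq (mkE g h)).tsum_eq.symm

theorem inner_E (x y : E) : HasSum (fun n => conj (x n) * y n) ⟪x, y⟫_ℂ := by
  have h := lp.hasSum_inner (𝕜 := ℂ) x y
  simpa [mul_comm] using h

/-- evaluation of the `n`-th coordinate -/
def ev (n : ℕ) : E →L[ℂ] ℂ := innerSL ℂ (lp.single 2 n (1 : ℂ))

@[simp] theorem ev_apply (n : ℕ) (x : E) : ev n x = x n := by
  simp [ev, lp.inner_single_left]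

theorem ext_E {x y : E} (h : ∀ n, x n = y n) : x = y := by
  apply Subtype.ext
  funext n
  exact h n

/-- the shift by `j` of a sequence -/
def shF (j : ℕ) (x : ℕ → ℂ) (n : ℕ) : ℂ := if j ≤ n then x (n - j) else 0

theorem shF_add (j : ℕ) (x : ℕ → ℂ) (n : ℕ) : shF j x (n + j) = x n := by simp [shF]

theorem shF_hasSum (j : ℕ) (x : E) : HasSum (fun n => ‖shF j x n‖ ^ 2) (‖x‖ ^ 2) := by
  have hi : Function.Injective (fun n : ℕ => n + j) := fun a b h => by simpa using h
  rw [← hi.hasSum_iff]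
  · have : ((fun n => ‖shF j x n‖ ^ 2) ∘ fun n : ℕ => n + j) = fun n => ‖x n‖ ^ 2 := by
      funext n; simp [shF_add]
    rw [this]; exact hasSum_sq x
  · intro n hn
    have : ¬ j ≤ n := fun h => hn ⟨n - j, by simp [Nat.sub_add_cancel h]⟩
    simp [shF, this]

/-- the shift by `j` -/
def sh (j : ℕ) : E →ₗᵢ[ℂ] E where
  toFun x := mkE (shF j x) (shF_hasSum j x).summable
  map_add' x y := ext_E fun n => by
    simp only [mkE_apply, lp.coeFn_add, Pi.add_apply, shF]
    split_ifs <;> simp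
  map_smul' c x := ext_E fun n => by
    simp only [mkE_apply, lp.coeFn_smul, Pi.smul_apply, shF, RingHom.id_apply]
    split_ifs <;> simp
  norm_map' x := by
    have h1 : ‖mkE (shF j x) (shF_hasSum j x).summable‖ ^ 2 = ‖x‖ ^ 2 := by
      rw [norm_mkE]; exact (shF_hasSum j x).tsum_eq
    exact (sq_eq_sq₀ (norm_nonneg _) (norm_nonneg _)).1 h1

@[simp] theorem sh_apply (j : ℕ) (x : E) (n : ℕ) : sh j x n = shF j x n := rfl

theorem sh_sh (i j : ℕ) (x : E) : sh i (sh j x) = sh (i + j) x := ext_E fun n => by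
  simp only [sh_apply, shF]
  by_cases h : i + j ≤ n
  · rw [if_pos (by omega), if_pos (by omega), if_pos h, Nat.sub_sub]
  · rw [if_neg h]
    split_ifs
    · omega
    · rfl
    · rfl

theorem sh_zero (x : E) : sh 0 x = x := ext_E fun n => by simp [shF]

theorem cv_shF (j : ℕ) (φ x : ℕ → ℂ) : cv φ (shF j x) = shF j (cv φ x) := by
  funext n
  simp only [cv, shF]
  split_ifs with h
  · obtain ⟨m, rfl⟩ := Nat.exists_eq_add_of_le h
    have e : j + m + 1 = (m + 1) + j := by ring
    rw [e, Finset.sum_range_add]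
    have z : ∑ k ∈ range j, φ (m + 1 + k) *
        (if j ≤ j + m - (m + 1 + k) then x (j + m - (m + 1 + k) - j) else 0) = 0 := by
      apply Finset.sum_eq_zero
      intro k hk
      rw [mem_range] at hk
      rw [if_neg (by omega), mul_zero]
    rw [z, add_zero]
    have e2 : j + m - j + 1 = m + 1 := by omega
    rw [e2]
    apply Finset.sum_congr rfl
    intro k hk
    rw [mem_range] at hk
    rw [if_pos (by omega)]
    congr 2
    omega
  · apply Finset.sum_eq_zero
    intro k hk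
    rw [mem_range] at hk
    rw [if_neg (by omega), mul_zero]

end

end Pool.Agent.V5helper91.BR
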