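import Pool.Agent.V5helper91.BR.Sum

/-!
# The limits of the partial sums
-/

set_option autoImplicit false

namespace Pool.Agent.V5helper91.BR

open scoped InnerProductSpace ComplexConjugate
open Finset Filter Polynomial

noncomputable section

/-- the partial sums for one tester -/
def Lam (t N m : ℕ) : ℝ := ∑ n ∈ range N, ph n * ft t (m + n)

theorem Lam_zero {t N m : ℕ} (h : N + m ≤ N2 t) : Lam t N m = 0 := by
  unfold Lam
  apply Finset.sum_eq_zero
  intro n hn
  rw [mem_range] at hn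
  rw [ft_zero (by omega), mul_zero]

theorem Lam_W {t N m : ℕ} (h : N + m ≤ N2 (t + 1)) : Lam t N m = W t N m := by
  unfold Lam W
  apply Finset.sum_congr rfl
  intro n hn
  rw [mem_range] at hn
  rw [ft_small (by omega), add_comm m n]

theorem Lam_large {t N : ℕ} (h : A (t + 2) ≤ N) (m : ℕ) : ((Lam t N m : ℝ) : ℂ) = tE t m := by
  rw [tE_apply]
  congr 1
  unfold Lam
  symm
  apply Finset.sum_subset
  · intro x hx
    rw [mem_range] at *
    omega
  · intro x _ hx
    rw [mem_range] at hx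
    rw [ft_large (by omega), mul_zero]

theorem term_eq {t m l r : ℕ} (hm : m < A t) (hr : r < N2 (t + 1))
    (hn : l * N2 (t + 1) + r < N1 (t + 2)) :
    ph (l * N2 (t + 1) + r) * ft t (m + (l * N2 (t + 1) + r)) =
      qc (K (t + 1)) l * Fc (R (t + 1)) l * (ph r * uc t (r + m)) := by
  have hN := N2_pos (t + 1)
  rw [ph_dig hn, Nat.mul_add_mod', Nat.mod_eq_of_lt hr, mul_comm l, Nat.mul_add_div hN,
    Nat.div_eq_of_lt hr, add_zero, ph_lt hr]
  rcases lt_or_ge (r + m) (N2 (t + 1)) with h | h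
  · have e1 : m + (N2 (t + 1) * l + r) = N2 (t + 1) * l + (r + m) := by ring
    unfold ft
    rw [e1, Nat.mul_add_mod, Nat.mod_eq_of_lt h, Nat.mul_add_div hN, Nat.div_eq_of_lt h, add_zero]
    ring
  · have e1 : (L (t + 1) + 1) * N1 (t + 1) ≤ r := by
      have h1 := half_N2 (t + 1)
      have h2 := N1_lt_half (t + 1)
      have h3 := A_lt_N1 (t + 1)
      have h4 := A_lt_succ t
      omega
    rw [M'_large e1]
    ring

theorem Lam_mid {t m k r : ℕ} (hm : m < A t) (hr : r ≤ N2 (t + 1))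
    (hn : k * N2 (t + 1) + r ≤ N1 (t + 2)) :
    Lam t (k * N2 (t + 1) + r) m =
      (∑ l ∈ range k, qc (K (t + 1)) l * Fc (R (t + 1)) l) * W t (N2 (t + 1)) m +
        qc (K (t + 1)) k * Fc (R (t + 1)) k * W t r m := by
  unfold Lam
  rw [sum_blocks]
  congr 1
  · rw [Finset.sum_mul]
    apply Finset.sum_congr rfl
    intro l hl
    rw [mem_range] at hl
    unfold W
    rw [Finset.mul_sum]
    apply Finset.sum_congr rfl
    intro s hs
    rw [mem_range] at hs
    apply term_eq hm hs
    have h1 : (l + 1) * N2 (t + 1) ≤ k * N2 (t + 1) := Nat.mul_le_mul_right _ hl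
    rw [add_mul, one_mul] at h1
    omega
  · unfold W
    rw [Finset.mul_sum]
    apply Finset.sum_congr rfl
    intro s hs
    rw [mem_range] at hs
    exact term_eq hm (by omega) (by omega)

theorem stage_pos {i N m : ℕ} (h1 : 1 ≤ m) (hm : m < A i) (h2 : N < N1 (i + 2)) :
    Lam i N m + Lam (i + 1) N m = 0 := by
  have hN := N2_pos (i + 1)
  have e1 : Lam (i + 1) N m = 0 := by
    rw [Lam_W, W_shift h1 (hm.trans (A_lt_succ i))]
    have a1 := half_N2 (i + 2)
    have a2 := N1_lt_half (i + 2)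
    have a3 := A_lt_N1 (i + 2)
    have a4 := A_lt_succ i
    have a5 := A_lt_succ (i + 1)
    have a6 : N2 (i + 1 + 1) = N2 (i + 2) := rfl
    have a7 : A (i + 1 + 1) = A (i + 2) := rfl
    omega
  have e2 : Lam i N m = 0 := by
    have e : N = (N / N2 (i + 1)) * N2 (i + 1) + N % N2 (i + 1) := by
      rw [mul_comm]; exact (Nat.div_add_mod N (N2 (i + 1))).symm
    rw [e, Lam_mid hm (Nat.mod_lt N hN).le (by rw [← e]; exact h2.le), W_shift h1 hm,
      W_shift h1 hm]
    ring
  rw [e1, e2, add_zero]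

theorem stage_zero {i N : ℕ} (h1 : N1 (i + 1) ≤ N) (h2 : N < N1 (i + 2)) :
    |Lam i N 0 + Lam (i + 1) N 0 - 1| ≤ 9 * (1 / 2) ^ i := by
  have hN := N2_pos (i + 1)
  set k := N / N2 (i + 1) with hk
  set r := N % N2 (i + 1) with hr
  have hr1 : r < N2 (i + 1) := Nat.mod_lt N hN
  have e : N = k * N2 (i + 1) + r := by
    rw [mul_comm]; exact (Nat.div_add_mod N (N2 (i + 1))).symm
  have hΛ1 : Lam (i + 1) N 0 = -(∑ l ∈ range k, qp (K (i + 1)) l) -
      qp (K (i + 1)) k * yy (i + 1) r := by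
    rw [Lam_W (by have := N1_lt_N2 (i + 2); rw [add_zero]; exact (h2.trans this).le), e]
    exact W_eq (i + 1) k r hr1.le
  rcases Nat.eq_zero_or_pos k with h0 | h0
  · have e3 : Lam i N 0 = 1 := by
      rw [h0, zero_mul, zero_add] at e
      rw [Lam_W (by rw [add_zero, e]; exact hr1.le)]
      exact W_full ((A_lt_N1 _).le.trans h1)
    rw [e3, hΛ1, h0]
    simp [qp]
  · have hK2 := two_le_K (i + 1)
    have hs : (2 : ℝ) ≤ s (i + 1) := by exact_mod_cast two_le_s (i + 1)
    have hΛ0 : Lam i N 0 = (∑ l ∈ range k, qc (K (i + 1)) l * Fc (R (i + 1)) l) +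
        qc (K (i + 1)) k * Fc (R (i + 1)) k * W i r 0 := by
      have h3 : k * N2 (i + 1) + r ≤ N1 (i + 2) := by rw [← e]; exact h2.le
      have h4 := Lam_mid (A_pos i) hr1.le h3
      rw [← e] at h4
      rw [h4, W_full (A_le_N2_succ i), mul_one]
    have h5 : (∑ l ∈ range k, qc (K (i + 1)) l * Fc (R (i + 1)) l) -
        ∑ l ∈ range k, qp (K (i + 1)) l =
        1 - ∑ l ∈ range k, qp (K (i + 1)) l * (1 - Fc (R (i + 1)) l) := by
      have h6 : ∀ l ∈ range k, qc (K (i + 1)) l * Fc (R (i + 1)) l =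
          (if l = 0 then (1 : ℝ) else 0) + qp (K (i + 1)) l * Fc (R (i + 1)) l := by
        intro l _
        unfold qp
        split_ifs with h
        · rw [h, qc_zero, Fc_zero (R_pos _)]; ring
        · ring
      rw [Finset.sum_congr rfl h6, Finset.sum_add_distrib,
        Finset.sum_ite_eq' (range k) 0 (fun _ => (1 : ℝ)), if_pos (mem_range.2 h0)]
      have h7 : ∀ l ∈ range k, qp (K (i + 1)) l * (1 - Fc (R (i + 1)) l) =
          qp (K (i + 1)) l - qp (K (i + 1)) l * Fc (R (i + 1)) l := fun l _ => by ring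
      rw [Finset.sum_congr rfl h7, Finset.sum_sub_distrib]
      ring
    have hKr : (K (i + 1) : ℝ) = (s (i + 1) : ℝ) ^ 2 := by unfold K; push_cast; rfl
    have hRr : (R (i + 1) : ℝ) = (s (i + 1) : ℝ) ^ 32 := by unfold R; push_cast; rfl
    have hspos : (0 : ℝ) < s (i + 1) := by linarith
    have h8 : |∑ l ∈ range k, qp (K (i + 1)) l * (1 - Fc (R (i + 1)) l)| ≤ 8 / s (i + 1) := by
      refine (Finset.abs_sum_le_sum_abs _ _).trans ?_
      have h9 : ∀ l ∈ range k, |qp (K (i + 1)) l * (1 - Fc (R (i + 1)) l)| ≤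
          |qp (K (i + 1)) l| * (2 / s (i + 1)) := by
        intro l _
        rw [abs_mul]
        rcases le_or_gt l (K (i + 1)) with h | h
        · apply mul_le_mul_of_nonneg_left _ (abs_nonneg _)
          have hl : l ≤ R (i + 1) := by have := K_lt_R (i + 1); omega
          have b1 := one_sub_Fc (R_pos (i + 1)) l hl
          have b2 := Fc_le_one (R_pos (i + 1)) l
          rw [abs_of_nonneg (by linarith)]
          refine b1.trans ?_
          have b3 : (l : ℝ) ≤ (s (i + 1) : ℝ) ^ 2 := by rw [← hKr]; exact_mod_cast h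
          rw [hRr, div_le_div_iff₀ (by positivity) hspos]
          have b4 : (s (i + 1) : ℝ) ^ 3 ≤ (s (i + 1) : ℝ) ^ 32 :=
            pow_le_pow_right₀ (by linarith) (by norm_num)
          calc 2 * (l : ℝ) * s (i + 1) ≤ 2 * (s (i + 1) : ℝ) ^ 2 * s (i + 1) := by
                apply mul_le_mul_of_nonneg_right _ hspos.le
                linarith
            _ = 2 * (s (i + 1) : ℝ) ^ 3 := by ring
            _ ≤ 2 * (s (i + 1) : ℝ) ^ 32 := by linarith
        · rw [qp_large h]; simp
      refine (Finset.sum_le_sum h9).trans ?_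
      rw [← Finset.sum_mul]
      have b5 := sum_abs_qp hK2 k
      calc (∑ l ∈ range k, |qp (K (i + 1)) l|) * (2 / s (i + 1)) ≤ 4 * (2 / s (i + 1)) := by
            apply mul_le_mul_of_nonneg_right b5 (by positivity)
        _ = 8 / s (i + 1) := by ring
    have hK4 : (4 : ℝ) / K (i + 1) ≤ 4 / s (i + 1) := by
      rw [hKr]
      apply div_le_div_of_nonneg_left (by norm_num) hspos
      nlinarith
    have h10 : |qc (K (i + 1)) k * Fc (R (i + 1)) k * W i r 0| ≤ 24 / s (i + 1) := by
      rw [abs_mul, abs_mul]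
      have b1 := abs_qc hK2 (show 1 ≤ k from h0)
      have b2 : |Fc (R (i + 1)) k| ≤ 1 := by
        rw [abs_of_nonneg (Fc_nonneg _ _)]; exact Fc_le_one (R_pos _) _
      have b3 := W_bound i r
      have b4 : |qc (K (i + 1)) k| ≤ 4 / s (i + 1) := b1.trans hK4
      calc |qc (K (i + 1)) k| * |Fc (R (i + 1)) k| * |W i r 0|
          ≤ (4 / s (i + 1)) * 1 * 6 := by
            apply mul_le_mul (mul_le_mul b4 b2 (abs_nonneg _) (by positivity)) b3 (abs_nonneg _)
              (by positivity)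
        _ = 24 / s (i + 1) := by ring
    have h11 : |qp (K (i + 1)) k * yy (i + 1) r| ≤ 4 / s (i + 1) := by
      rw [abs_mul, abs_of_nonneg (yy_nonneg _ _)]
      have b1 := (abs_qp hK2 k).trans hK4
      have b2 := yy_le (i := i + 1) hr1.le
      calc |qp (K (i + 1)) k| * yy (i + 1) r ≤ (4 / s (i + 1)) * 1 :=
            mul_le_mul b1 b2 (yy_nonneg _ _) (by positivity)
        _ = 4 / s (i + 1) := by ring
    have h12 : Lam i N 0 + Lam (i + 1) N 0 - 1 =
        -(∑ l ∈ range k, qp (K (i + 1)) l * (1 - Fc (R (i + 1)) l)) +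
          qc (K (i + 1)) k * Fc (R (i + 1)) k * W i r 0 - qp (K (i + 1)) k * yy (i + 1) r := by
      rw [hΛ0, hΛ1]
      linarith
    rw [h12]
    have h13 : (9 : ℝ) * (1 / 2) ^ i = 36 / s (i + 1) := by
      have : (s (i + 1) : ℝ) = 4 * 2 ^ i := by
        unfold s; push_cast; ring
      rw [this, one_div_pow]
      field_simp
      norm_num
    rw [h13]
    have h14 : (36 : ℝ) / s (i + 1) = 8 / s (i + 1) + 24 / s (i + 1) + 4 / s (i + 1) := by ring
    rw [h14]
    rw [abs_le] at *
    constructor <;> linarith [h8.1, h8.2, h10.1, h10.2, h11.1, h11.2]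

/-- The total of the partial sums. -/
theorem hasSum_Lam (N m : ℕ) : HasSum (fun t => ((Lam t N m : ℝ) : ℂ))
    (∑ n ∈ range N, conj (φc n) * FF (m + n)) := by
  have h : ∀ n ∈ range N, HasSum (fun t => φc n * ((ft t (m + n) : ℝ) : ℂ))
      (conj (φc n) * FF (m + n)) := by
    intro n _
    have h1 : HasSum (fun t => ev (m + n) (fE t)) (ev (m + n) FF) := (ev (m + n)).hasSum hasSum_fE
    simp only [ev_apply, fE_apply] at h1
    have h2 : conj (φc n) = φc n := Complex.conj_ofReal _
    rw [h2]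
    exact h1.mul_left _
  have h3 := hasSum_sum h
  have h4 : (fun t => ((Lam t N m : ℝ) : ℂ)) =
      fun t => ∑ n ∈ range N, φc n * ((ft t (m + n) : ℝ) : ℂ) := by
    funext t
    unfold Lam φc
    push_cast
    rfl
  rw [h4]
  exact h3

/-- the vector `e₀` as a sequence -/
def δ0 (m : ℕ) : ℝ := if m = 0 then 1 else 0

theorem stage {i N m : ℕ} (hm : m < A i) (h1 : N1 (i + 1) ≤ N) (h2 : N < N1 (i + 2)) :
    |Lam i N m + Lam (i + 1) N m - δ0 m| ≤ 9 * (1 / 2) ^ i := by
  unfold δ0
  rcases Nat.eq_zero_or_pos m with h | h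
  · rw [if_pos h, h]; exact stage_zero h1 h2
  · rw [if_neg (by omega), stage_pos h hm h2, sub_zero, abs_zero]
    positivity

theorem limit (m : ℕ) : Tendsto (fun N => ∑ n ∈ range N, conj (φc n) * FF (m + n)) atTop
    (nhds (FP m + ((δ0 m : ℝ) : ℂ))) := by
  rw [Metric.tendsto_atTop]
  intro ε hε
  have h1 : Tendsto (fun i => ∑ t ∈ range i, tE t m) atTop (nhds (FP m)) := by
    have h : HasSum (fun t => ev m (tE t)) (ev m FP) := (ev m).hasSum hasSum_tE
    simp only [ev_apply] at h
    exact h.tendsto_sum_nat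
  have h2 : Tendsto (fun i : ℕ => 9 * (1 / 2 : ℝ) ^ i) atTop (nhds 0) := by
    have := (tendsto_pow_atTop_nhds_zero_of_lt_one (r := (1 / 2 : ℝ)) (by norm_num)
      (by norm_num)).const_mul 9
    rwa [mul_zero] at this
  rw [Metric.tendsto_atTop] at h1 h2
  obtain ⟨i1, hi1⟩ := h1 (ε / 2) (by linarith)
  obtain ⟨i2, hi2⟩ := h2 (ε / 2) (by linarith)
  set i0 := max (max i1 i2) m with hi0
  refine ⟨N1 (i0 + 1), fun N hN => ?_⟩
  obtain ⟨i, hi, ha, hb⟩ : ∃ i, i0 ≤ i ∧ N1 (i + 1) ≤ N ∧ N < N1 (i + 2) := by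
    have hex : ∃ j, N < N1 (j + 2) := by
      refine ⟨N, ?_⟩
      have b1 := lt_A (N + 2)
      have b2 := A_lt_N1 (N + 2)
      omega
    classical
    have hs := Nat.find_spec hex
    refine ⟨Nat.find hex, ?_, ?_, hs⟩
    · have := N1_mono.lt_iff_lt.1 (lt_of_le_of_lt hN hs)
      omega
    · rcases Nat.eq_zero_or_pos (Nat.find hex) with h | h
      · rw [h]
        exact (N1_mono.monotone (by omega)).trans hN
      · have h5 := Nat.find_min hex (m := Nat.find hex - 1) (by omega)
        push Not at h5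
        have e : Nat.find hex - 1 + 2 = Nat.find hex + 1 := by omega
        rwa [e] at h5
  have hmA : m < A i := by
    have b1 := lt_A i
    omega
  have hsum : ∑ n ∈ range N, conj (φc n) * FF (m + n) =
      ∑ t ∈ range (i + 2), ((Lam t N m : ℝ) : ℂ) := by
    refine (hasSum_Lam N m).unique (hasSum_sum_of_ne_finset_zero fun t ht => ?_)
    rw [mem_range] at ht
    rw [Lam_zero, Complex.ofReal_zero]
    have b1 := N2_mono.monotone (show i + 2 ≤ t by omega)
    have b2 := half_N2 (i + 2)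
    have b3 := N1_lt_half (i + 2)
    have b4 := A_lt_N1 (i + 2)
    have b5 := A_mono (show i < i + 2 by omega)
    omega
  have hlow : ∑ t ∈ range i, ((Lam t N m : ℝ) : ℂ) = ∑ t ∈ range i, tE t m := by
    apply Finset.sum_congr rfl
    intro t ht
    rw [mem_range] at ht
    apply Lam_large
    have b1 := A_mono.monotone (show t + 2 ≤ i + 1 by omega)
    have b2 := A_lt_N1 (i + 1)
    omega
  rw [dist_eq_norm, hsum, Finset.sum_range_succ, Finset.sum_range_succ, hlow]
  have e1 : ∑ t ∈ range i, tE t m + ((Lam i N m : ℝ) : ℂ) + ((Lam (i + 1) N m : ℝ) : ℂ) -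
      (FP m + ((δ0 m : ℝ) : ℂ)) = (∑ t ∈ range i, tE t m - FP m) +
        ((Lam i N m + Lam (i + 1) N m - δ0 m : ℝ) : ℂ) := by
    push_cast
    ring
  rw [e1]
  refine (norm_add_le _ _).trans_lt ?_
  have e2 := hi1 i (by omega)
  have e3 := hi2 i (by omega)
  rw [dist_eq_norm] at e2
  rw [Real.dist_eq, sub_zero, abs_of_nonneg (by positivity)] at e3
  have e4 := stage hmA ha hb
  rw [Complex.norm_real, Real.norm_eq_abs]
  linarith

end

end Pool.Agent.V5helper91.BR
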