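import Pool.Agent.V5helper91.BR.Basic

/-!
# The Pythagorean pair of a function of the Smirnov class

`φ` is a power series such that the space of the `h ∈ ℓ²` with `φ h ∈ ℓ²` is dense. Then there is a
Pythagorean pair `(b, a)` with `φ = b / a`.
-/

set_option autoImplicit false

namespace Pool.Agent.V5helper91.BR

open scoped InnerProductSpace ComplexConjugate
open Finset Filter

noncomputable section

/-- pairs of square-summable sequences -/
abbrev X : Type := WithLp 2 (E × E)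

/-- the shift of pairs -/
def sX (j : ℕ) : X →ₗᵢ[ℂ] X := LinearIsometry.withLpProdMap 2 (sh j) (sh j)

theorem sX_fst (j : ℕ) (x : X) : (sX j x).fst = sh j x.fst := rfl
theorem sX_snd (j : ℕ) (x : X) : (sX j x).snd = sh j x.snd := rfl

theorem ext_X {x y : X} (h1 : x.fst = y.fst) (h2 : x.snd = y.snd) : x = y := by
  have : WithLp.ofLp x = WithLp.ofLp y := Prod.ext h1 h2
  exact (WithLp.ofLp_injective 2) this

theorem sX_sX (i j : ℕ) (x : X) : sX i (sX j x) = sX (i + j) x := by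
  apply ext_X
  · rw [sX_fst, sX_fst, sX_fst, sh_sh]
  · rw [sX_snd, sX_snd, sX_snd, sh_sh]

theorem sX_zero (x : X) : sX 0 x = x := by
  apply ext_X
  · rw [sX_fst, sh_zero]
  · rw [sX_snd, sh_zero]

/-- the defect in the `n`-th coordinate -/
def dfc (φ : ℕ → ℂ) (n : ℕ) : X →L[ℂ] ℂ :=
  (∑ k ∈ range (n + 1), φ k • ((ev (n - k)).comp (WithLp.fstL 2 ℂ E E))) -
    (ev n).comp (WithLp.sndL 2 ℂ E E)

theorem dfc_apply (φ : ℕ → ℂ) (n : ℕ) (x : X) : dfc φ n x = cv φ x.fst n - x.snd n := by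
  simp [dfc, cv]

/-- the graph of the multiplication by `φ` -/
def KK (φ : ℕ → ℂ) : Submodule ℂ X := ⨅ n, LinearMap.ker (dfc φ n).toLinearMap

theorem mem_KK {φ : ℕ → ℂ} {x : X} : x ∈ KK φ ↔ ∀ n, cv φ x.fst n = x.snd n := by
  simp only [KK, Submodule.mem_iInf, LinearMap.mem_ker, ContinuousLinearMap.coe_coe, dfc_apply,
    sub_eq_zero]

theorem isClosed_KK (φ : ℕ → ℂ) : IsClosed (KK φ : Set X) := by
  have : (KK φ : Set X) = ⋂ n, {x | dfc φ n x = 0} := by
    ext x; simp [KK]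
  rw [this]
  exact isClosed_iInter fun n => isClosed_eq (dfc φ n).continuous continuous_const

instance (φ : ℕ → ℂ) : CompleteSpace (KK φ) := (isClosed_KK φ).completeSpace_coe

theorem sX_mem {φ : ℕ → ℂ} {x : X} (h : x ∈ KK φ) (j : ℕ) : sX j x ∈ KK φ := by
  rw [mem_KK] at h ⊢
  intro n
  rw [sX_fst, sX_snd, sh_apply]
  have e : (fun n => sh j x.fst n) = shF j x.fst := rfl
  have e1 : cv φ (sh j x.fst) n = cv φ (shF j x.fst) n := rfl
  rw [e1, cv_shF]
  simp only [shF]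
  split_ifs
  · exact h _
  · rfl

/-- an element of the graph without constant term is a shift -/
theorem exists_pred {φ : ℕ → ℂ} {x : X} (h : x ∈ KK φ) (h0 : x.fst 0 = 0) :
    ∃ y ∈ KK φ, sX 1 y = x := by
  rw [mem_KK] at h
  have h1 : x.snd 0 = 0 := by rw [← h 0]; simp [cv, h0]
  have s1 : Summable fun n => ‖x.fst (n + 1)‖ ^ 2 :=
    (summable_nat_add_iff (f := fun n => ‖x.fst n‖ ^ 2) 1).2 (summable_sq _)
  have s2 : Summable fun n => ‖x.snd (n + 1)‖ ^ 2 :=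
    (summable_nat_add_iff (f := fun n => ‖x.snd n‖ ^ 2) 1).2 (summable_sq _)
  let y : X := WithLp.toLp 2 (mkE (fun n => x.fst (n + 1)) s1, mkE (fun n => x.snd (n + 1)) s2)
  have hy : sX 1 y = x := by
    apply ext_X
    · rw [sX_fst]
      refine ext_E fun n => ?_
      rw [sh_apply]
      simp only [shF]
      cases n with
      | zero => simp [h0]
      | succ n => simp [y]
    · rw [sX_snd]
      refine ext_E fun n => ?_
      rw [sh_apply]
      simp only [shF]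
      cases n with
      | zero => simp [h1]
      | succ n => simp [y]
  refine ⟨y, ?_, hy⟩
  rw [mem_KK]
  intro n
  have h2 := h (n + 1)
  rw [← hy, sX_fst, sX_snd, sh_apply] at h2
  have e1 : cv φ (sh 1 y.fst) (n + 1) = cv φ (shF 1 y.fst) (n + 1) := rfl
  rw [e1, cv_shF] at h2
  simpa [shF] using h2

/-- the hypothesis that `φ` belongs to the Smirnov class: the domain of the multiplication by `φ` is
dense -/
def Dense (φ : ℕ → ℂ) : Prop :=
  ∀ g : E, (∀ h : E, Summable (fun n => ‖cv φ h n‖ ^ 2) → ⟪h, g⟫_ℂ = 0) → g = 0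

/-- the pair of an element of the domain -/
theorem mem_dom {φ : ℕ → ℂ} {h : E} (hs : Summable (fun n => ‖cv φ h n‖ ^ 2)) :
    WithLp.toLp 2 (h, mkE (cv φ h) hs) ∈ KK φ := by
  rw [mem_KK]
  intro n
  rfl

theorem inner_X (x y : X) : ⟪x, y⟫_ℂ = ⟪x.fst, y.fst⟫_ℂ + ⟪x.snd, y.snd⟫_ℂ := rfl

theorem norm_X (x : X) : ‖x‖ ^ 2 = ‖x.fst‖ ^ 2 + ‖x.snd‖ ^ 2 := WithLp.prod_norm_sq_eq_of_L2 x

/-- The wandering vector. -/
theorem exists_wandering {φ : ℕ → ℂ} (hD : Dense φ) :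
    ∃ k : X, k ∈ KK φ ∧ ‖k‖ = 1 ∧ 0 < (k.fst 0).re ∧ (k.fst 0).im = 0 ∧
      ∀ x ∈ KK φ, ⟪k, x⟫_ℂ = 0 ↔ x.fst 0 = 0 := by
  let ev0 : (KK φ) →L[ℂ] ℂ := ((ev 0).comp (WithLp.fstL 2 ℂ E E)).comp (KK φ).subtypeL
  let k0 : KK φ := (InnerProductSpace.toDual ℂ (KK φ)).symm ev0
  have hk0 : ∀ x : KK φ, ⟪k0, x⟫_ℂ = (x : X).fst 0 := fun x => by
    rw [InnerProductSpace.toDual_symm_apply]
    simp [ev0]
  have hk1 : ∀ x ∈ KK φ, ⟪(k0 : X), x⟫_ℂ = x.fst 0 := fun x hx => hk0 ⟨x, hx⟩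
  have hne : (k0 : X) ≠ 0 := by
    intro h
    have h1 : (lp.single 2 0 (1 : ℂ) : E) = 0 := by
      apply hD
      intro h' hs
      have h2 := hk1 _ (mem_dom hs)
      rw [h, inner_zero_left] at h2
      rw [lp.inner_single_right]
      have h3 : h' 0 = 0 := h2.symm
      simp [h3]
    have h2 : (lp.single 2 0 (1 : ℂ) : E) 0 = 0 := by rw [h1]; rfl
    simp at h2
  have hpos : 0 < ‖(k0 : X)‖ := norm_pos_iff.2 hne
  have h00 : (k0 : X).fst 0 = ((‖(k0 : X)‖ ^ 2 : ℝ) : ℂ) := by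
    rw [← hk1 _ k0.2, inner_self_eq_norm_sq_to_K]
    norm_cast
  refine ⟨((‖(k0 : X)‖⁻¹ : ℝ) : ℂ) • (k0 : X), (KK φ).smul_mem _ k0.2, ?_, ?_, ?_, ?_⟩
  · rw [norm_smul, Complex.norm_real, norm_inv, norm_norm, inv_mul_cancel₀ hpos.ne']
  · rw [WithLp.smul_fst]
    have : (((‖(k0 : X)‖⁻¹ : ℝ) : ℂ) • (k0 : X).fst) 0 = ((‖(k0 : X)‖⁻¹ * ‖(k0 : X)‖ ^ 2 : ℝ) : ℂ) := by
      rw [lp.coeFn_smul, Pi.smul_apply, h00, smul_eq_mul]; push_cast; rfl
    rw [this, Complex.ofReal_re]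
    positivity
  · rw [WithLp.smul_fst]
    have : (((‖(k0 : X)‖⁻¹ : ℝ) : ℂ) • (k0 : X).fst) 0 = ((‖(k0 : X)‖⁻¹ * ‖(k0 : X)‖ ^ 2 : ℝ) : ℂ) := by
      rw [lp.coeFn_smul, Pi.smul_apply, h00, smul_eq_mul]; push_cast; rfl
    rw [this, Complex.ofReal_im]
  · intro x hx
    rw [inner_smul_left, hk1 x hx, mul_eq_zero]
    constructor
    · rintro (h | h)
      · simp at h
        exact absurd (by rw [h]; rfl) hne
      · exact h
    · intro h; right; exact h

theorem orthonormal_sX {φ : ℕ → ℂ} {k : X} (hk : k ∈ KK φ) (h1 : ‖k‖ = 1)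
    (h2 : ∀ x ∈ KK φ, ⟪k, x⟫_ℂ = 0 ↔ x.fst 0 = 0) : Orthonormal ℂ fun j => sX j k := by
  constructor
  · intro j
    rw [LinearIsometry.norm_map, h1]
  · have key : ∀ i d : ℕ, ⟪sX i k, sX (i + (d + 1)) k⟫_ℂ = 0 := fun i d => by
      rw [← sX_sX, LinearIsometry.inner_map_map]
      rw [h2 _ (sX_mem hk _), sX_fst, sh_apply]
      simp [shF]
    intro i j hij
    rcases lt_or_gt_of_ne hij with h | h
    · obtain ⟨d, rfl⟩ := Nat.exists_eq_add_of_lt h
      exact key i d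
    · obtain ⟨d, rfl⟩ := Nat.exists_eq_add_of_lt h
      rw [← inner_conj_symm]
      have := key j d
      rw [show j + d + 1 = j + (d + 1) from rfl, this, map_zero]

/-- An element of the graph which is orthogonal to all shifts of the wandering vector is zero. -/
theorem eq_zero_of_orth {φ : ℕ → ℂ} {k : X}
    (h2 : ∀ x ∈ KK φ, ⟪k, x⟫_ℂ = 0 ↔ x.fst 0 = 0) {x : X} (hx : x ∈ KK φ)
    (ho : ∀ j, ⟪sX j k, x⟫_ℂ = 0) : x = 0 := by
  have key : ∀ n : ℕ, ∀ x ∈ KK φ, (∀ j, ⟪sX j k, x⟫_ℂ = 0) → x.fst n = 0 := by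
    intro n
    induction n with
    | zero =>
      intro x hx ho
      have := ho 0
      rw [sX_zero] at this
      exact (h2 x hx).1 this
    | succ n ih =>
      intro x hx ho
      have h0 : x.fst 0 = 0 := by
        have := ho 0
        rw [sX_zero] at this
        exact (h2 x hx).1 this
      obtain ⟨y, hy, rfl⟩ := exists_pred hx h0
      have := ih y hy (fun j => by
        have h3 := ho (1 + j)
        rw [← sX_sX, LinearIsometry.inner_map_map] at h3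
        exact h3)
      rw [sX_fst, sh_apply]
      simpa [shF] using this
  have h3 : x.fst = 0 := ext_E fun n => key n x hx ho
  have h4 : x.snd = 0 := ext_E fun n => by
    rw [← mem_KK.1 hx n, h3]
    simp [cv]
  exact ext_X h3 h4

end

end Pool.Agent.V5helper91.BR
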