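import Pool.Agent.V5helper91.BR.Dens1
import Pool.Agent.V5helper91.BR.Lim
import Pool.Agent.V5helper91.BR.Pair

/-!
# The function `φ` belongs to the Smirnov class
-/

set_option autoImplicit false

namespace Pool.Agent.V5helper91.BR

open scoped InnerProductSpace ComplexConjugate
open Finset Filter Polynomial

noncomputable section

/-- the partial products -/
def Hn (n : ℕ) : ℕ → ℝ[X]
  | 0 => 1
  | d + 1 => Hn n d * expand ℝ (N1 (n + d)) (ep (K (n + d)))

theorem Hn_succ (n d : ℕ) :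
    Hn n (d + 1) = Hn n d * expand ℝ (N1 (n + d)) (ep (K (n + d))) := rfl

theorem natDegree_Hn (n d : ℕ) : (Hn n d).natDegree < A (n + d) := by
  induction d with
  | zero =>
    simp only [Hn, natDegree_one]
    exact A_pos _
  | succ d ih =>
    rw [Hn_succ]
    have h1 : (expand ℝ (N1 (n + d)) (ep (K (n + d)))).natDegree ≤ K (n + d) * N1 (n + d) := by
      rw [natDegree_expand]
      exact Nat.mul_le_mul_right _ (natDegree_ep _)
    have h2 : (K (n + d) + 1) * N1 (n + d) ≤ (L (n + d) + 1) * N1 (n + d) :=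
      Nat.mul_le_mul_right _ (Nat.succ_le_succ (K_le_L _))
    have h3 := half_N2 (n + d)
    have h4 := A_lt_N1 (n + d)
    have h5 := N2_le_A (n + d)
    have h6 : n + (d + 1) = n + d + 1 := rfl
    have h7 : (Hn n d * expand ℝ (N1 (n + d)) (ep (K (n + d)))).natDegree ≤
        (Hn n d).natDegree + (expand ℝ (N1 (n + d)) (ep (K (n + d)))).natDegree :=
      natDegree_mul_le
    rw [add_mul, one_mul] at h2
    rw [h6]
    omega

theorem Hn_lt (n d : ℕ) : (Hn n d).natDegree < N1 (n + d) :=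
  (natDegree_Hn n d).trans (A_lt_N1 _)

theorem MH_lt (n d : ℕ) : (M (n + d) * Hn n d).natDegree < N1 (n + d) := by
  have h1 := natDegree_M (n + d)
  have h2 := natDegree_Hn n d
  have h3 : (M (n + d) * Hn n d).natDegree ≤ (M (n + d)).natDegree + (Hn n d).natDegree :=
    natDegree_mul_le
  unfold N1
  omega

theorem coeff_Hn_succ {n d k : ℕ} (h : k < N1 (n + d)) :
    (Hn n (d + 1)).coeff k = (Hn n d).coeff k := by
  rw [Hn_succ, coeff_mul_expand (Hn_lt n d), Nat.mod_eq_of_lt h, Nat.div_eq_of_lt h,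
    coeff_ep_zero, mul_one]

theorem Hn_stable {n d d' k : ℕ} (hd : d ≤ d') (h : k < N1 (n + d)) :
    (Hn n d').coeff k = (Hn n d).coeff k := by
  induction d', hd using Nat.le_induction with
  | base => rfl
  | succ j hj ih =>
    rw [coeff_Hn_succ (h.trans_le (N1_mono.monotone (by omega))), ih]

theorem one_div_K (i : ℕ) : (1 : ℝ) / K i = (1 / 4) ^ (i + 1) := by
  unfold K s
  push_cast
  rw [← pow_mul, mul_comm, pow_mul, one_div_pow]
  norm_num

/-- the norms of the partial products -/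
theorem norm_Hn (n d : ℕ) : ‖toE (Hn n d)‖ ^ 2 ≤ 1 + (1 / 4) ^ n - (1 / 4) ^ (n + d) := by
  induction d with
  | zero =>
    have : ‖toE (Hn n 0)‖ ^ 2 = 1 := by
      rw [norm_toE (Hn n 0) (D := 1) (by simp [Hn])]
      simp [Hn]
    rw [this, add_zero]
    linarith
  | succ d ih =>
    rw [Hn_succ, norm_mul_expand (Hn_lt n d), mul_pow, norm_ep (K_pos _), one_div_K]
    have e : n + (d + 1) = n + d + 1 := rfl
    rw [e]
    have h1 : ((1 : ℝ) / 4) ^ (n + d) = 4 * (1 / 4) ^ (n + d + 1) := by rw [pow_succ]; ring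
    have h2 : (0 : ℝ) < (1 / 4) ^ (n + d + 1) := by positivity
    have h3 : ((1 : ℝ) / 4) ^ n ≤ 1 := pow_le_one₀ (by norm_num) (by norm_num)
    have h4 : (0 : ℝ) ≤ ‖toE (Hn n d)‖ ^ 2 := by positivity
    rw [h1] at ih
    set a := ((1 : ℝ) / 4) ^ (n + d + 1)
    set b := ((1 : ℝ) / 4) ^ n
    calc ‖toE (Hn n d)‖ ^ 2 * (1 + a) ≤ (1 + b - 4 * a) * (1 + a) :=
          mul_le_mul_of_nonneg_right ih (by linarith)
      _ ≤ 1 + b - a := by nlinarith

theorem norm_Hn_le (n d : ℕ) : ‖toE (Hn n d)‖ ≤ 2 := by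
  have h1 := norm_Hn n d
  have h2 : (0 : ℝ) < (1 / 4) ^ (n + d) := by positivity
  have h3 : ((1 : ℝ) / 4) ^ n ≤ 1 := pow_le_one₀ (by norm_num) (by norm_num)
  nlinarith [norm_nonneg (toE (Hn n d))]

theorem MH_succ (n d : ℕ) : M (n + (d + 1)) * Hn n (d + 1) =
    ((M (n + d) * Hn n d) * expand ℝ (N1 (n + d)) (ep (K (n + d))) +
      Hn n d * expand ℝ (N1 (n + d)) (Gh (L (n + d)) (β (n + d) / L (n + d)) * ep (K (n + d)))) *
      expand ℝ (N2 (n + d)) (Q (K (n + d))) := by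
  have e : n + (d + 1) = n + d + 1 := rfl
  rw [e, M_succ, Hn_succ, map_mul]
  unfold M' G
  ring

theorem norm_MH_succ (n d : ℕ) : ‖toE (M (n + (d + 1)) * Hn n (d + 1))‖ + 1 ≤
    (‖toE (M (n + d) * Hn n d)‖ + 1) * (1 + 21 * (1 / 4) ^ (n + d + 1)) := by
  set i := n + d with hi
  have hN := N1_pos i
  have hK := K_pos i
  -- degrees
  have hd : ((M i * Hn n d) * expand ℝ (N1 i) (ep (K i)) +
      Hn n d * expand ℝ (N1 i) (Gh (L i) (β i / L i) * ep (K i))).natDegree < N2 i := by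
    refine (natDegree_add_le _ _).trans_lt ?_
    rw [max_lt_iff]
    have a1 := MH_lt n d
    have a2 := Hn_lt n d
    rw [← hi] at a1 a2
    have a3 := K_le_L i
    have a4 : N2 i = 2 * L i * N1 i + 2 * N1 i := by rw [half_N2]; ring
    constructor
    · refine natDegree_mul_le.trans_lt ?_
      rw [natDegree_expand]
      have a5 : (ep (K i)).natDegree * N1 i ≤ L i * N1 i :=
        Nat.mul_le_mul_right _ ((natDegree_ep _).trans a3)
      have a6 : 2 * L i * N1 i = L i * N1 i + L i * N1 i := by ring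
      omega
    · refine natDegree_mul_le.trans_lt ?_
      rw [natDegree_expand]
      have a5 : (Gh (L i) (β i / L i) * ep (K i)).natDegree * N1 i ≤ (L i + L i) * N1 i :=
        Nat.mul_le_mul_right _ (natDegree_mul_le.trans
          (Nat.add_le_add (natDegree_Gh _ _) ((natDegree_ep _).trans a3)))
      have a6 : 2 * L i * N1 i = (L i + L i) * N1 i := by ring
      omega
  have h1 : ‖toE (M (n + (d + 1)) * Hn n (d + 1))‖ ≤
      (‖toE (M i * Hn n d)‖ * ‖toE (ep (K i))‖ +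
        ‖toE (Hn n d)‖ * ‖toE (Gh (L i) (β i / L i) * ep (K i))‖) * ‖toE (Q (K i))‖ := by
    rw [MH_succ, ← hi, norm_mul_expand hd, toE_add]
    apply mul_le_mul_of_nonneg_right _ (norm_nonneg _)
    refine (norm_add_le _ _).trans ?_
    rw [norm_mul_expand (MH_lt n d), norm_mul_expand (Hn_lt n d)]
  set a : ℝ := (1 / 4) ^ (i + 1) with ha
  have ha0 : 0 < a := by positivity
  have ha1 : a ≤ 1 / 4 := by
    rw [ha, pow_succ]
    have : ((1 : ℝ) / 4) ^ i ≤ 1 := pow_le_one₀ (by norm_num) (by norm_num)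
    linarith
  have hKa : (1 : ℝ) / K i = a := one_div_K i
  have b1 : ‖toE (ep (K i))‖ ≤ 1 + a := by
    have c1 := norm_ep hK
    rw [hKa] at c1
    nlinarith [norm_nonneg (toE (ep (K i)))]
  have b2 : ‖toE (Q (K i))‖ ≤ 1 + 16 * a := by
    have c1 := norm_Q (two_le_K i)
    have c2 : (16 : ℝ) / K i = 16 * a := by rw [← hKa]; ring
    rw [c2] at c1
    nlinarith [norm_nonneg (toE (Q (K i)))]
  have b3 : ‖toE (Gh (L i) (β i / L i) * ep (K i))‖ ≤ 2 * a := by
    have c1 := norm_Gh_ep hK (L i) (β i / L i)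
    have hs : (2 : ℝ) ≤ s i := by exact_mod_cast two_le_s i
    have hs0 : (0 : ℝ) < s i := by linarith
    have c2 : 2 * (K i : ℝ) * (β i / L i) ^ 2 = 2 / (s i : ℝ) ^ 22 := by
      have e3 : (L i : ℝ) = (s i : ℝ) ^ 60 := by unfold L; push_cast; rfl
      have e4 : (K i : ℝ) = (s i : ℝ) ^ 2 := by unfold K; push_cast; rfl
      have e5 : β i = (s i : ℝ) ^ 48 := rfl
      rw [e3, e4, e5]
      field_simp
    have c3 : a = 1 / (s i : ℝ) ^ 2 := by
      rw [← hKa]; unfold K; push_cast; rfl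
    rw [c2] at c1
    have c4 : 2 / (s i : ℝ) ^ 22 ≤ (2 * a) ^ 2 := by
      rw [c3, mul_pow, div_pow, one_pow, ← pow_mul, ← mul_div_assoc, mul_one,
        div_le_div_iff₀ (by positivity) (by positivity)]
      have c5 : (s i : ℝ) ^ (2 * 2) ≤ (s i : ℝ) ^ 22 :=
        pow_le_pow_right₀ (by linarith) (by norm_num)
      have c6 : (0 : ℝ) < (s i : ℝ) ^ 22 := by positivity
      linarith
    exact (sq_le_sq₀ (norm_nonneg _) (by positivity)).1 (c1.trans c4)
  have b4 := norm_Hn_le n d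
  set y := ‖toE (M i * Hn n d)‖ with hy
  have hy0 : 0 ≤ y := norm_nonneg _
  have h2 : ‖toE (M (n + (d + 1)) * Hn n (d + 1))‖ ≤ (y * (1 + a) + 2 * (2 * a)) * (1 + 16 * a) := by
    refine h1.trans ?_
    apply mul_le_mul _ b2 (norm_nonneg _) (by positivity)
    apply add_le_add
    · exact mul_le_mul_of_nonneg_left b1 hy0
    · exact mul_le_mul b4 b3 (norm_nonneg _) (by norm_num)
  have h3 : (y * (1 + a) + 2 * (2 * a)) * (1 + 16 * a) + 1 ≤ (y + 1) * (1 + 21 * a) := by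
    have c1 : (1 + a) * (1 + 16 * a) ≤ 1 + 21 * a := by nlinarith
    have c2 : 2 * (2 * a) * (1 + 16 * a) ≤ 20 * a := by nlinarith
    have c3 : y * ((1 + a) * (1 + 16 * a)) ≤ y * (1 + 21 * a) := mul_le_mul_of_nonneg_left c1 hy0
    nlinarith
  linarith

theorem norm_MH (n d : ℕ) : ‖toE (M (n + d) * Hn n d)‖ + 1 ≤
    (‖toE (M n)‖ + 1) * Real.exp (7 * ((1 / 4) ^ n - (1 / 4) ^ (n + d))) := by
  induction d with
  | zero =>
    have : M (n + 0) * Hn n 0 = M n := by simp [Hn]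
    rw [this, add_zero, sub_self, mul_zero, Real.exp_zero, mul_one]
  | succ d ih =>
    refine (norm_MH_succ n d).trans ?_
    have h1 : 1 + 21 * ((1 : ℝ) / 4) ^ (n + d + 1) ≤ Real.exp (21 * (1 / 4) ^ (n + d + 1)) := by
      have := Real.add_one_le_exp (21 * ((1 : ℝ) / 4) ^ (n + d + 1))
      linarith
    calc (‖toE (M (n + d) * Hn n d)‖ + 1) * (1 + 21 * (1 / 4) ^ (n + d + 1))
        ≤ ((‖toE (M n)‖ + 1) * Real.exp (7 * ((1 / 4) ^ n - (1 / 4) ^ (n + d)))) *
            Real.exp (21 * (1 / 4) ^ (n + d + 1)) := by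
          apply mul_le_mul ih h1 (by positivity) (by positivity)
      _ = _ := by
          rw [mul_assoc, ← Real.exp_add]
          congr 2
          have e : n + (d + 1) = n + d + 1 := rfl
          rw [e, pow_succ _ (n + d)]
          ring

theorem norm_MH_le (n d : ℕ) : ‖toE (M (n + d) * Hn n d)‖ ≤ (‖toE (M n)‖ + 1) * Real.exp 7 := by
  have h1 := norm_MH n d
  have h2 : Real.exp (7 * ((1 / 4) ^ n - (1 / 4) ^ (n + d))) ≤ Real.exp 7 := by
    apply Real.exp_le_exp.2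
    have h3 : (0 : ℝ) < (1 / 4) ^ (n + d) := by positivity
    have h4 : ((1 : ℝ) / 4) ^ n ≤ 1 := pow_le_one₀ (by norm_num) (by norm_num)
    linarith
  have h5 : (‖toE (M n)‖ + 1) * Real.exp (7 * ((1 / 4) ^ n - (1 / 4) ^ (n + d))) ≤
      (‖toE (M n)‖ + 1) * Real.exp 7 := mul_le_mul_of_nonneg_left h2 (by positivity)
  linarith

/-! ### The limits -/

/-- the infinite product -/
def hs (n k : ℕ) : ℝ := (Hn n k).coeff k

theorem lt_N1 (n d : ℕ) : d < N1 (n + d) := by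
  have h1 := lt_A (n + d)
  have h2 := A_lt_N1 (n + d)
  omega

theorem hs_eq {n d k : ℕ} (h : k < N1 (n + d)) : hs n k = (Hn n d).coeff k := by
  unfold hs
  rcases le_total d k with h1 | h1
  · exact Hn_stable h1 h
  · exact (Hn_stable h1 (lt_N1 n k)).symm

theorem sum_le (n N : ℕ) : ∑ k ∈ range N, ‖((hs n k : ℝ) : ℂ)‖ ^ 2 ≤ 1 + (1 / 4) ^ n := by
  have h1 : ∑ k ∈ range N, ‖((hs n k : ℝ) : ℂ)‖ ^ 2 = ∑ k ∈ range N, ‖toE (Hn n N) k‖ ^ 2 := by
    apply Finset.sum_congr rfl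
    intro k hk
    rw [mem_range] at hk
    rw [toE_apply, hs_eq (hk.trans (lt_N1 n N))]
  rw [h1]
  have h2 : ∑ k ∈ range N, ‖toE (Hn n N) k‖ ^ 2 ≤ ‖toE (Hn n N)‖ ^ 2 :=
    sum_le_hasSum _ (fun _ _ => by positivity) (hasSum_sq _)
  have h3 := norm_Hn n N
  have h4 : (0 : ℝ) < (1 / 4) ^ (n + N) := by positivity
  linarith

theorem summable_hs (n : ℕ) : Summable fun k => ‖((hs n k : ℝ) : ℂ)‖ ^ 2 :=
  summable_of_sum_range_le (fun _ => by positivity) (sum_le n)

/-- the infinite product as an element of `E` -/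
def hE (n : ℕ) : E := mkE (fun k => ((hs n k : ℝ) : ℂ)) (summable_hs n)

theorem norm_hE (n : ℕ) : ‖hE n‖ ^ 2 ≤ 1 + (1 / 4) ^ n := by
  unfold hE
  rw [norm_mkE]
  exact Real.tsum_le_of_sum_range_le (fun _ => by positivity) (sum_le n)

theorem cv_hE (n : ℕ) {d k : ℕ} (h : k < N1 (n + d)) :
    cv φc (hE n) k = toE (M (n + d) * Hn n d) k := by
  rw [toE_apply, coeff_mul, Finset.Nat.sum_antidiagonal_eq_sum_range_succ_mk]
  unfold cv
  push_cast
  apply Finset.sum_congr rfl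
  intro j hj
  rw [mem_range] at hj
  have h1 : hE n (k - j) = ((hs n (k - j) : ℝ) : ℂ) := rfl
  rw [h1, hs_eq (d := d) (by omega)]
  unfold φc
  rw [ph_eq (i := n + d) (by omega)]

theorem summable_cv (n : ℕ) : Summable fun k => ‖cv φc (hE n) k‖ ^ 2 := by
  apply summable_of_sum_range_le (c := ((‖toE (M n)‖ + 1) * Real.exp 7) ^ 2)
    (fun _ => by positivity)
  intro N
  have h1 : ∑ k ∈ range N, ‖cv φc (hE n) k‖ ^ 2 =
      ∑ k ∈ range N, ‖toE (M (n + N) * Hn n N) k‖ ^ 2 := by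
    apply Finset.sum_congr rfl
    intro k hk
    rw [mem_range] at hk
    rw [cv_hE n (hk.trans (lt_N1 n N))]
  rw [h1]
  have h2 : ∑ k ∈ range N, ‖toE (M (n + N) * Hn n N) k‖ ^ 2 ≤ ‖toE (M (n + N) * Hn n N)‖ ^ 2 :=
    sum_le_hasSum _ (fun _ _ => by positivity) (hasSum_sq _)
  exact h2.trans (pow_le_pow_left₀ (norm_nonneg _) (norm_MH_le n N) 2)

/-- the vector `e₀` -/
def e0 : E := lp.single 2 0 (1 : ℂ)

theorem inner_e0 (x : E) : ⟪e0, x⟫_ℂ = x 0 := by
  simp [e0, lp.inner_single_left]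

theorem norm_e0 : ‖e0‖ = 1 := by
  unfold e0
  rw [lp.norm_single (by norm_num)]
  simp

theorem hE_zero (n : ℕ) : hE n 0 = 1 := by
  have h1 : hE n 0 = ((hs n 0 : ℝ) : ℂ) := rfl
  rw [h1]
  simp [hs, Hn]

theorem dist_hE (n : ℕ) : ‖e0 - hE n‖ ^ 2 ≤ (1 / 4) ^ n := by
  have h1 : ‖e0 - hE n‖ ^ 2 = ‖e0‖ ^ 2 - 2 * (⟪e0, hE n⟫_ℂ).re + ‖hE n‖ ^ 2 :=
    norm_sub_sq (𝕜 := ℂ) e0 (hE n)
  rw [h1, inner_e0, hE_zero, norm_e0]
  have := norm_hE n
  simp only [Complex.one_re]
  linarith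

theorem dense_φc : Dense φc := by
  intro g hg
  have h1 : ∀ j n : ℕ, ⟪sh j (hE n), g⟫_ℂ = 0 := by
    intro j n
    apply hg
    have e : (fun k => ‖cv φc (sh j (hE n)) k‖ ^ 2) = fun k => ‖shF j (cv φc (hE n)) k‖ ^ 2 := by
      funext k
      have e1 : cv φc (sh j (hE n)) k = cv φc (shF j (hE n)) k := rfl
      rw [e1, cv_shF]
    rw [e]
    exact (shF_hasSum j (mkE (cv φc (hE n)) (summable_cv n))).summable
  apply ext_E
  intro j
  have h2 : ⟪sh j e0, g⟫_ℂ = g j := by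
    have h := inner_E (sh j e0) g
    have h3 : HasSum (fun n => conj (sh j e0 n) * g n) (conj (sh j e0 j) * g j) := by
      apply hasSum_single
      intro n hn
      have : sh j e0 n = 0 := by
        rw [sh_apply]
        unfold shF
        split_ifs with h4
        · have h5 : n - j ≠ 0 := by omega
          simp [e0, lp.single_apply, Pi.single_eq_of_ne h5]
        · rfl
      rw [this]
      simp
    rw [h.unique h3]
    have h6 : sh j e0 j = 1 := by
      rw [sh_apply]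
      simp [shF, e0]
    rw [h6]
    simp
  have h3 : ∀ n : ℕ, ‖g j‖ ≤ (1 / 2) ^ n * ‖g‖ := by
    intro n
    have h4 : ⟪sh j (e0 - hE n), g⟫_ℂ = g j := by
      rw [map_sub, inner_sub_left, h2, h1, sub_zero]
    rw [← h4]
    refine (norm_inner_le_norm _ _).trans ?_
    rw [LinearIsometry.norm_map]
    apply mul_le_mul_of_nonneg_right _ (norm_nonneg _)
    have h5 := dist_hE n
    have h6 : ((1 : ℝ) / 4) ^ n = ((1 / 2) ^ n) ^ 2 := by
      rw [← pow_mul, mul_comm, pow_mul]; norm_num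
    rw [h6] at h5
    exact (sq_le_sq₀ (norm_nonneg _) (by positivity)).1 h5
  have h4 : Tendsto (fun n : ℕ => (1 / 2 : ℝ) ^ n * ‖g‖) atTop (nhds 0) := by
    have := (tendsto_pow_atTop_nhds_zero_of_lt_one (r := (1 / 2 : ℝ)) (by norm_num)
      (by norm_num)).mul_const ‖g‖
    rwa [zero_mul] at this
  have h5 : ‖g j‖ ≤ 0 := ge_of_tendsto' h4 h3
  have h6 : g j = 0 := norm_le_zero_iff.1 h5
  rw [h6]
  rfl

end

end Pool.Agent.V5helper91.BR
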