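import Pool.Agent.V5helper91.BR.Seqs

/-!
# The polynomials with a simple zero at one
-/

set_option autoImplicit false

namespace Pool.Agent.V5helper91.BR

open scoped InnerProductSpace ComplexConjugate
open Finset Filter Polynomial

noncomputable section

theorem toE_sum {ι : Type*} (S : Finset ι) (P : ι → ℝ[X]) :
    toE (∑ j ∈ S, P j) = ∑ j ∈ S, toE (P j) := by
  classical
  induction S using Finset.induction_on with
  | empty =>
    rw [Finset.sum_empty, Finset.sum_empty]
    exact ext_E fun n => by simp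
  | insert a S ha ih => rw [Finset.sum_insert ha, Finset.sum_insert ha, toE_add, ih]

theorem norm_toE_C_mul (a : ℝ) (P : ℝ[X]) : ‖toE (C a * P)‖ = |a| * ‖toE P‖ := by
  have : toE (C a * P) = ((a : ℝ) : ℂ) • toE P := ext_E fun n => by
    rw [toE_apply, coeff_C_mul, lp.coeFn_smul, Pi.smul_apply, toE_apply, smul_eq_mul]
    push_cast
    rfl
  rw [this, norm_smul, Complex.norm_real, Real.norm_eq_abs]

/-- a polynomial with a simple zero at one -/
def ep (J : ℕ) : ℝ[X] := 1 - Gh J (1 / J)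

theorem natDegree_ep (J : ℕ) : (ep J).natDegree ≤ J := by
  unfold ep
  refine (natDegree_sub_le _ _).trans ?_
  rw [natDegree_one]
  exact max_le (Nat.zero_le _) (natDegree_Gh _ _)

theorem coeff_ep_zero (J : ℕ) : (ep J).coeff 0 = 1 := by
  unfold ep
  rw [coeff_sub, coeff_one_zero, coeff_Gh, ind_zero]
  ring

theorem norm_ep {J : ℕ} (hJ : 0 < J) : ‖toE (ep J)‖ ^ 2 = 1 + 1 / J := by
  have h0 : (0 : ℝ) < J := by exact_mod_cast hJ
  rw [norm_toE (ep J) (Nat.lt_succ_of_le (natDegree_ep J)), Finset.sum_range_succ', coeff_ep_zero]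
  have : ∀ l ∈ range J, (ep J).coeff (l + 1) ^ 2 = (1 / (J : ℝ)) ^ 2 := by
    intro l hl
    rw [mem_range] at hl
    unfold ep
    rw [coeff_sub, coeff_Gh, coeff_one, if_neg (by omega)]
    unfold ind
    rw [if_pos (by omega)]
    ring
  rw [Finset.sum_congr rfl this, Finset.sum_const, card_range, nsmul_eq_mul]
  field_simp
  ring

theorem ep_eq {J : ℕ} (hJ : 0 < J) :
    ep J = ∑ j ∈ range J, C (1 / (J : ℝ)) * (1 - X ^ (j + 1)) := by
  have h0 : (J : ℝ) ≠ 0 := by exact_mod_cast hJ.ne'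
  have h1 : ∑ j ∈ range J, C (1 / (J : ℝ)) * (1 - X ^ (j + 1)) =
      1 - ∑ j ∈ range J, C (1 / (J : ℝ)) * X ^ (j + 1) := by
    have : ∀ j ∈ range J, C (1 / (J : ℝ)) * (1 - X ^ (j + 1)) =
        C (1 / (J : ℝ)) - C (1 / (J : ℝ)) * X ^ (j + 1) := fun j _ => by ring
    rw [Finset.sum_congr rfl this, Finset.sum_sub_distrib, Finset.sum_const, card_range,
      nsmul_eq_mul]
    congr 1
    rw [← C_eq_natCast, ← C_mul, mul_one_div, div_self h0, C_1]
  rw [h1]
  unfold ep
  congr 1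
  unfold Gh
  rw [Finset.sum_range_succ', ind_zero, mul_zero, monomial_zero_right, add_zero]
  apply Finset.sum_congr rfl
  intro l hl
  rw [mem_range] at hl
  rw [C_mul_X_pow_eq_monomial]
  unfold ind
  rw [if_pos (by omega), mul_one]

theorem norm_diff (L j : ℕ) (c : ℝ) :
    ‖toE (Gh L c * (1 - X ^ j))‖ ^ 2 ≤ 2 * j * c ^ 2 := by
  have hd : (Gh L c * (1 - X ^ j)).natDegree < L + (j + 1) := by
    refine (natDegree_mul_le.trans (Nat.add_le_add (natDegree_Gh L c)
      (natDegree_sub_le (1 : ℝ[X]) (X ^ j)))).trans_lt ?_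
    rw [natDegree_one, natDegree_X_pow]
    omega
  rw [norm_toE _ hd]
  have h1 : ∀ s ∈ range (L + (j + 1)), (Gh L c * (1 - X ^ j)).coeff s ^ 2 ≤
      c ^ 2 * (ind j s + ind j (s - L)) := by
    intro s _
    rw [mul_sub, mul_one, coeff_sub, coeff_mul_X_pow', coeff_Gh]
    have h2 : (c * ind L s - if j ≤ s then (Gh L c).coeff (s - j) else 0) =
        c * (ind L s - if j ≤ s then ind L (s - j) else 0) := by
      split_ifs
      · rw [coeff_Gh]; ring
      · ring
    rw [h2, mul_pow]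
    apply mul_le_mul_of_nonneg_left _ (sq_nonneg c)
    unfold ind
    split_ifs <;> first | (norm_num; done) | (exfalso; omega)
  refine (Finset.sum_le_sum h1).trans (le_of_eq ?_)
  rw [← Finset.mul_sum, Finset.sum_add_distrib, sum_ind j (by omega), Finset.sum_range_add]
  have h3 : ∑ s ∈ range L, ind j (s - L) = 0 := by
    apply Finset.sum_eq_zero
    intro s hs
    rw [mem_range] at hs
    rw [Nat.sub_eq_zero_of_le (by omega), ind_zero]
  have h4 : ∑ s ∈ range (j + 1), ind j (L + s - L) = j := by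
    have : ∀ s ∈ range (j + 1), ind j (L + s - L) = ind j s := fun s _ => by
      rw [Nat.add_sub_cancel_left]
    rw [Finset.sum_congr rfl this, sum_ind j (by omega)]
  rw [h3, h4]
  ring

theorem norm_Gh_ep {J : ℕ} (hJ : 0 < J) (L : ℕ) (c : ℝ) :
    ‖toE (Gh L c * ep J)‖ ^ 2 ≤ 2 * J * c ^ 2 := by
  have h0 : (0 : ℝ) < J := by exact_mod_cast hJ
  rw [ep_eq hJ, Finset.mul_sum, toE_sum]
  have h1 : ‖∑ j ∈ range J, toE (Gh L c * (C (1 / (J : ℝ)) * (1 - X ^ (j + 1))))‖ ≤
      Real.sqrt (2 * J * c ^ 2) := by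
    refine (norm_sum_le _ _).trans ?_
    have h2 : ∀ j ∈ range J, ‖toE (Gh L c * (C (1 / (J : ℝ)) * (1 - X ^ (j + 1))))‖ ≤
        1 / J * Real.sqrt (2 * J * c ^ 2) := by
      intro j hj
      rw [mem_range] at hj
      have e : Gh L c * (C (1 / (J : ℝ)) * (1 - X ^ (j + 1))) =
          C (1 / (J : ℝ)) * (Gh L c * (1 - X ^ (j + 1))) := by ring
      rw [e, norm_toE_C_mul, abs_of_nonneg (by positivity)]
      apply mul_le_mul_of_nonneg_left _ (by positivity)
      apply Real.le_sqrt_of_sq_le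
      refine (norm_diff L (j + 1) c).trans ?_
      apply mul_le_mul_of_nonneg_right _ (sq_nonneg c)
      have : ((j + 1 : ℕ) : ℝ) ≤ J := by exact_mod_cast hj
      linarith
    refine (Finset.sum_le_sum h2).trans (le_of_eq ?_)
    rw [Finset.sum_const, card_range, nsmul_eq_mul]
    field_simp
  calc ‖∑ j ∈ range J, toE (Gh L c * (C (1 / (J : ℝ)) * (1 - X ^ (j + 1))))‖ ^ 2
      ≤ Real.sqrt (2 * J * c ^ 2) ^ 2 := pow_le_pow_left₀ (norm_nonneg _) h1 2
    _ = 2 * J * c ^ 2 := Real.sq_sqrt (by positivity)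

end

end Pool.Agent.V5helper91.BR
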