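import Pool.Agent.V5helper91.BR.Basic

/-!
# Products with separated frequencies
-/

set_option autoImplicit false

namespace Pool.Agent.V5helper91.BR

open scoped InnerProductSpace ComplexConjugate
open Finset Filter Polynomial

noncomputable section

theorem sum_blocks (G : ℕ → ℝ) (N k r : ℕ) :
    ∑ n ∈ range (k * N + r), G n =
      (∑ l ∈ range k, ∑ s ∈ range N, G (l * N + s)) + ∑ s ∈ range r, G (k * N + s) := by
  rw [Finset.sum_range_add]
  congr 1
  induction k with
  | zero => simp
  | succ k ih =>
    rw [Finset.sum_range_succ, Nat.succ_mul, Finset.sum_range_add, ih]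

theorem digit_sum (x y : ℕ → ℝ) {N : ℕ} (hN : 0 < N) (k : ℕ) :
    ∑ n ∈ range (k * N), x (n % N) * y (n / N) = (∑ s ∈ range N, x s) * ∑ l ∈ range k, y l := by
  have h := sum_blocks (fun n => x (n % N) * y (n / N)) N k 0
  rw [add_zero] at h
  rw [h, Finset.sum_range_zero, add_zero, Finset.mul_sum]
  apply Finset.sum_congr rfl
  intro l _
  rw [Finset.sum_mul]
  apply Finset.sum_congr rfl
  intro s hs
  rw [mem_range] at hs
  rw [show (l * N + s) % N = s by rw [Nat.mul_add_mod', Nat.mod_eq_of_lt hs],
    show (l * N + s) / N = l by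
      rw [mul_comm, Nat.mul_add_div hN, Nat.div_eq_of_lt hs, add_zero]]

/-- the coefficients of a product with separated frequencies -/
theorem coeff_mul_expand {P : ℝ[X]} {N : ℕ} (hP : P.natDegree < N) (Q : ℝ[X]) (n : ℕ) :
    (P * expand ℝ N Q).coeff n = P.coeff (n % N) * Q.coeff (n / N) := by
  have hN : 0 < N := lt_of_le_of_lt (Nat.zero_le _) hP
  induction Q using Polynomial.induction_on' with
  | add p q hp hq => rw [map_add, mul_add, coeff_add, hp, hq, coeff_add, mul_add]
  | monomial k c =>
    rw [expand_monomial, ← C_mul_X_pow_eq_monomial, mul_left_comm, coeff_C_mul, coeff_mul_X_pow',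
      coeff_monomial]
    by_cases h : k = n / N
    · rw [if_pos h]
      have h1 : k * N ≤ n := by rw [h]; exact Nat.div_mul_le_self n N
      rw [if_pos h1, mul_comm c]
      congr 2
      have h2 := Nat.mod_add_div n N
      rw [h, mul_comm (n / N) N]
      omega
    · rw [if_neg h, mul_zero]
      split_ifs with h1
      · have h2 : k < n / N := by
          rcases lt_or_gt_of_ne h with h3 | h3
          · exact h3
          · exfalso
            have : n < k * N := by
              have h4 : n / N + 1 ≤ k := h3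
              calc n < (n / N + 1) * N := by
                    have := Nat.mod_add_div n N
                    have h5 := Nat.mod_lt n hN
                    nlinarith [Nat.mod_add_div n N]
                _ ≤ k * N := Nat.mul_le_mul_right _ h4
            omega
        have h3 : (k + 1) * N ≤ n := by
          calc (k + 1) * N ≤ (n / N) * N := Nat.mul_le_mul_right _ h2
            _ ≤ n := Nat.div_mul_le_self n N
        have h4 : N ≤ n - k * N := by
          rw [add_mul, one_mul] at h3
          omega
        rw [coeff_eq_zero_of_natDegree_lt (lt_of_lt_of_le hP h4), mul_zero]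
      · rw [mul_zero]

theorem sum_poly (P : ℝ[X]) : Summable fun n => ‖((P.coeff n : ℝ) : ℂ)‖ ^ 2 := by
  apply summable_of_ne_finset_zero (s := range (P.natDegree + 1))
  intro n hn
  rw [mem_range] at hn
  rw [coeff_eq_zero_of_natDegree_lt (by omega)]
  simp

/-- the sequence of the coefficients of a polynomial -/
def toE (P : ℝ[X]) : E := mkE (fun n => ((P.coeff n : ℝ) : ℂ)) (sum_poly P)

@[simp] theorem toE_apply (P : ℝ[X]) (n : ℕ) : toE P n = ((P.coeff n : ℝ) : ℂ) := rfl

theorem toE_add (P Q : ℝ[X]) : toE (P + Q) = toE P + toE Q := ext_E fun n => by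
  simp

theorem norm_toE (P : ℝ[X]) {D : ℕ} (hD : P.natDegree < D) :
    ‖toE P‖ ^ 2 = ∑ n ∈ range D, (P.coeff n) ^ 2 := by
  have h := hasSum_sq (toE P)
  have h2 : HasSum (fun n => ‖toE P n‖ ^ 2) (∑ n ∈ range D, ‖toE P n‖ ^ 2) := by
    apply hasSum_sum_of_ne_finset_zero
    intro n hn
    rw [mem_range] at hn
    rw [toE_apply, coeff_eq_zero_of_natDegree_lt (by omega)]
    simp
  rw [h.unique h2]
  apply Finset.sum_congr rfl
  intro n _
  rw [toE_apply, Complex.norm_real, Real.norm_eq_abs, sq_abs]

theorem norm_mul_expand {P : ℝ[X]} {N : ℕ} (hP : P.natDegree < N) (Q : ℝ[X]) :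
    ‖toE (P * expand ℝ N Q)‖ = ‖toE P‖ * ‖toE Q‖ := by
  have hN : 0 < N := lt_of_le_of_lt (Nat.zero_le _) hP
  have hd : (P * expand ℝ N Q).natDegree < (Q.natDegree + 1) * N := by
    calc (P * expand ℝ N Q).natDegree ≤ P.natDegree + (expand ℝ N Q).natDegree := natDegree_mul_le
      _ = P.natDegree + Q.natDegree * N := by rw [natDegree_expand]
      _ < N + Q.natDegree * N := by omega
      _ = (Q.natDegree + 1) * N := by ring
  have h : ‖toE (P * expand ℝ N Q)‖ ^ 2 = (‖toE P‖ * ‖toE Q‖) ^ 2 := by
    rw [norm_toE _ hd, mul_pow, norm_toE P hP, norm_toE Q (Nat.lt_succ_self _)]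
    rw [← digit_sum (fun s => P.coeff s ^ 2) (fun l => Q.coeff l ^ 2) hN]
    apply Finset.sum_congr rfl
    intro n _
    rw [coeff_mul_expand hP, mul_pow]
  exact (sq_eq_sq₀ (norm_nonneg _) (by positivity)).1 h

end

end Pool.Agent.V5helper91.BR
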