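import Pool.Agent.V5helper91.BR.Pair2

/-!
# The norm of the de Branges-Rovnyak space
-/

set_option autoImplicit false

namespace Pool.Agent.V5helper91.BR

open scoped InnerProductSpace ComplexConjugate
open Finset Filter

noncomputable section

theorem cv_single (a : ℕ → ℂ) (j : ℕ) : cv a (Pi.single j 1) = shF j a := by
  funext n
  rw [cv_comm]
  simp only [cv, shF]
  split_ifs with h
  · rw [Finset.sum_eq_single j]
    · simp
    · intro k _ hk
      simp [Pi.single_eq_of_ne hk]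
    · intro hj
      rw [mem_range] at hj
      omega
  · apply Finset.sum_eq_zero
    intro k hk
    rw [mem_range] at hk
    have : k ≠ j := by omega
    simp [Pi.single_eq_of_ne this]

theorem summable_single (j : ℕ) : Summable fun n => ‖(Pi.single j (1 : ℂ) : ℕ → ℂ) n‖ ^ 2 := by
  apply summable_of_ne_finset_zero (s := {j})
  intro n hn
  rw [mem_singleton] at hn
  simp [Pi.single_eq_of_ne hn]

/-- the range of the multiplication by `a` -/
def Rg (a : ℕ → ℂ) : Submodule ℂ E where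
  carrier := {x | ∃ g : ℕ → ℂ, Summable (fun n => ‖g n‖ ^ 2) ∧ ∀ n, x n = cv a g n}
  zero_mem' := ⟨0, by simp, fun n => by simp [cv]⟩
  add_mem' := by
    rintro x y ⟨g, hg, hx⟩ ⟨g', hg', hy⟩
    refine ⟨fun n => (mkE g hg + mkE g' hg') n, summable_sq _, fun n => ?_⟩
    rw [lp.coeFn_add, Pi.add_apply, hx, hy]
    simp only [cv, lp.coeFn_add, Pi.add_apply, mkE_apply]
    rw [← Finset.sum_add_distrib]
    apply Finset.sum_congr rfl
    intro k _
    ring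
  smul_mem' := by
    rintro c x ⟨g, hg, hx⟩
    refine ⟨fun n => (c • mkE g hg) n, summable_sq _, fun n => ?_⟩
    rw [lp.coeFn_smul, Pi.smul_apply, hx]
    simp only [cv, lp.coeFn_smul, Pi.smul_apply, mkE_apply, smul_eq_mul]
    rw [Finset.mul_sum]
    apply Finset.sum_congr rfl
    intro k _
    ring

theorem dense_Rg {a b : ℕ → ℂ} (hI : Iso a b) (hC : Cyc a) : (Rg a).topologicalClosure = ⊤ := by
  rw [Submodule.topologicalClosure_eq_top_iff, Submodule.eq_bot_iff]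
  intro w hw
  rw [Submodule.mem_orthogonal] at hw
  have ha : Summable fun n => ‖a n‖ ^ 2 := by
    have := (hI _ (summable_single 0)).1
    rw [cv_single] at this
    simpa [shF] using this
  have h0 : (fun n => w n) = 0 := by
    apply hC _ (summable_sq w)
    intro j
    have h1 : sh j (mkE a ha) ∈ Rg a := by
      refine ⟨Pi.single j 1, summable_single j, fun n => ?_⟩
      rw [cv_single, sh_apply]
      rfl
    have h2 := hw _ h1
    rw [← inner_conj_symm, inner_sh] at h2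
    simpa using h2
  exact ext_E fun n => congrFun h0 n

/-- the set of the numbers `‖f + b g‖² - ‖g‖²` -/
def SS (b f : ℕ → ℂ) : Set ℝ :=
  {x : ℝ | ∃ g : ℕ → ℂ, Summable (fun n => ‖g n‖ ^ 2) ∧
    x = (∑' n, ‖f n + cv b g n‖ ^ 2) - ∑' n, ‖g n‖ ^ 2}

theorem value {a b φ : ℕ → ℂ} (hI : Iso a b) (hab : ∀ n, cv a φ n = b n) (f fp : E)
    (hF : ∀ h y : E, (∀ n, y n = cv φ h n) → ⟪f, y⟫_ℂ = ⟪fp, h⟫_ℂ)
    (g : ℕ → ℂ) (hg : Summable (fun n => ‖g n‖ ^ 2)) :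
    (∑' n, ‖f n + cv b g n‖ ^ 2) - ∑' n, ‖g n‖ ^ 2 =
      ‖f‖ ^ 2 + ‖fp‖ ^ 2 - ‖fp - mkE (cv a g) (hI g hg).1‖ ^ 2 := by
  obtain ⟨h1, h2, h3⟩ := hI g hg
  set h : E := mkE (cv a g) h1 with hh
  set y : E := mkE (cv b g) h2 with hy
  have hb : b = cv a φ := by funext n; exact (hab n).symm
  have hyn : ∀ n, y n = cv φ h n := fun n => by
    have : cv b g n = cv φ (cv a g) n := by
      rw [hb, cv_comm a φ, cv_assoc]
    rw [hy, mkE_apply, this]
    rfl
  have e1 : ∑' n, ‖f n + cv b g n‖ ^ 2 = ‖f + y‖ ^ 2 := by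
    rw [← (hasSum_sq (f + y)).tsum_eq]
    rfl
  have e2 : ‖f + y‖ ^ 2 = ‖f‖ ^ 2 + 2 * (⟪fp, h⟫_ℂ).re + ‖y‖ ^ 2 := by
    rw [← hF h y hyn]
    exact norm_add_sq (𝕜 := ℂ) f y
  have e3 : ‖fp - h‖ ^ 2 = ‖fp‖ ^ 2 - 2 * (⟪fp, h⟫_ℂ).re + ‖h‖ ^ 2 := norm_sub_sq (𝕜 := ℂ) fp h
  have e4 : ‖h‖ ^ 2 + ‖y‖ ^ 2 = ∑' n, ‖g n‖ ^ 2 := by
    rw [hh, hy, norm_mkE, norm_mkE]; exact h3
  rw [e1, e2, e3, ← e4]
  ring

/-- The norm: the least upper bound is `‖f‖² + ‖f⁺‖²`. -/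
theorem lub {a b φ : ℕ → ℂ} (hI : Iso a b) (hC : Cyc a) (hab : ∀ n, cv a φ n = b n) (f fp : E)
    (hF : ∀ h y : E, (∀ n, y n = cv φ h n) → ⟪f, y⟫_ℂ = ⟪fp, h⟫_ℂ) :
    IsLUB (SS b f) (‖f‖ ^ 2 + ‖fp‖ ^ 2) := by
  constructor
  · rintro x ⟨g, hg, rfl⟩
    rw [value hI hab f fp hF g hg]
    have := sq_nonneg ‖fp - mkE (cv a g) (hI g hg).1‖
    linarith
  · intro B hB
    by_contra hlt
    push Not at hlt
    set ε := ‖f‖ ^ 2 + ‖fp‖ ^ 2 - B with hε
    have hε0 : 0 < ε := by linarith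
    have hd : fp ∈ (Rg a).topologicalClosure := by rw [dense_Rg hI hC]; trivial
    have hd' : fp ∈ closure (Rg a : Set E) := hd
    rw [Metric.mem_closure_iff] at hd'
    obtain ⟨h, ⟨g, hg, hx⟩, hlt2⟩ := hd' (Real.sqrt ε) (Real.sqrt_pos.2 hε0)
    have hh : h = mkE (cv a g) (hI g hg).1 := ext_E fun n => hx n
    have h1 := hB ⟨g, hg, rfl⟩
    rw [value hI hab f fp hF g hg, ← hh] at h1
    rw [dist_eq_norm] at hlt2
    have h2 : ‖fp - h‖ ^ 2 < ε := by
      have := (Real.lt_sqrt (norm_nonneg _)).1 hlt2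
      exact this
    linarith

end

end Pool.Agent.V5helper91.BR
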