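import Pool.Agent.V5helper91.BR.Seqs

/-!
# Polynomials of the backward shift
-/

set_option autoImplicit false

namespace Pool.Agent.V5helper91.BR

open scoped InnerProductSpace ComplexConjugate
open Finset Filter Polynomial

noncomputable section

theorem bs_summable (x : E) : Summable fun n => ‖x (n + 1)‖ ^ 2 :=
  (summable_nat_add_iff 1).2 (summable_sq x)

theorem norm_bs (x : E) : ‖mkE (fun n => x (n + 1)) (bs_summable x)‖ ≤ ‖x‖ := by
  have h1 : ‖mkE (fun n => x (n + 1)) (bs_summable x)‖ ^ 2 ≤ ‖x‖ ^ 2 := by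
    rw [norm_mkE, ← (hasSum_sq x).tsum_eq, (summable_sq x).tsum_eq_zero_add]
    have : 0 ≤ ‖x 0‖ ^ 2 := by positivity
    linarith
  exact (sq_le_sq₀ (norm_nonneg _) (norm_nonneg _)).1 h1

/-- the backward shift -/
def B : E →L[ℂ] E :=
  LinearMap.mkContinuous
    { toFun := fun x => mkE (fun n => x (n + 1)) (bs_summable x)
      map_add' := fun x y => ext_E fun n => by simp
      map_smul' := fun c x => ext_E fun n => by simp } 1
    (fun x => by rw [one_mul]; exact norm_bs x)

@[simp] theorem B_apply (x : E) (n : ℕ) : B x n = x (n + 1) := rfl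

theorem norm_B : ‖B‖ ≤ 1 := LinearMap.mkContinuous_norm_le _ zero_le_one _

theorem B_pow (k : ℕ) (x : E) (n : ℕ) : (B ^ k) x n = x (n + k) := by
  induction k generalizing n with
  | zero => simp
  | succ k ih =>
    have e : (B ^ (k + 1)) x = B ((B ^ k) x) := by rw [pow_succ']; rfl
    rw [e, B_apply, ih, show n + 1 + k = n + (k + 1) by ring]

theorem norm_B_pow (k : ℕ) : ‖B ^ k‖ ≤ 1 := by
  rcases Nat.eq_zero_or_pos k with h | h
  · subst h
    rw [pow_zero]
    exact ContinuousLinearMap.norm_id_le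
  · exact (norm_pow_le' B h).trans (pow_le_one₀ (norm_nonneg _) norm_B)

/-- the value of a real polynomial at the backward shift -/
def op (P : ℝ[X]) : E →L[ℂ] E := aeval B (P.map (algebraMap ℝ ℂ))

theorem op_mul (P Q : ℝ[X]) : op (P * Q) = op P * op Q := by
  unfold op; rw [Polynomial.map_mul, map_mul]

theorem op_add (P Q : ℝ[X]) : op (P + Q) = op P + op Q := by
  unfold op; rw [Polynomial.map_add, map_add]

theorem op_one : op 1 = 1 := by
  unfold op; rw [Polynomial.map_one, map_one]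

theorem op_eq (P : ℝ[X]) {D : ℕ} (hD : P.natDegree < D) :
    op P = ∑ k ∈ range D, ((P.coeff k : ℝ) : ℂ) • B ^ k := by
  unfold op
  rw [aeval_eq_sum_range' (lt_of_le_of_lt natDegree_map_le hD)]
  apply Finset.sum_congr rfl
  intro k _
  rw [coeff_map]
  rfl

theorem op_apply (P : ℝ[X]) {D : ℕ} (hD : P.natDegree < D) (x : E) (n : ℕ) :
    op P x n = ∑ k ∈ range D, ((P.coeff k : ℝ) : ℂ) * x (n + k) := by
  rw [op_eq P hD, ← ev_apply, _root_.sum_apply, map_sum]
  apply Finset.sum_congr rfl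
  intro k _
  rw [smul_apply, map_smul, ev_apply, B_pow, smul_eq_mul]

theorem norm_op_le (P : ℝ[X]) {D : ℕ} (hD : P.natDegree < D) :
    ‖op P‖ ≤ ∑ k ∈ range D, |P.coeff k| := by
  rw [op_eq P hD]
  refine (norm_sum_le _ _).trans ?_
  apply Finset.sum_le_sum
  intro k _
  rw [norm_smul, Complex.norm_real, Real.norm_eq_abs]
  exact mul_le_of_le_one_right (abs_nonneg _) (norm_B_pow k)

theorem norm_op_expand_le (P : ℝ[X]) {N : ℕ} (hN : 0 < N) {D : ℕ} (hD : P.natDegree < D) :
    ‖op (expand ℝ N P)‖ ≤ ∑ k ∈ range D, |P.coeff k| := by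
  have hd : (expand ℝ N P).natDegree < D * N := by
    rw [natDegree_expand]
    exact (Nat.mul_lt_mul_right hN).2 hD
  refine (norm_op_le _ hd).trans (le_of_eq ?_)
  have h := digit_sum (fun r => if r = 0 then (1 : ℝ) else 0) (fun l => |P.coeff l|) hN D
  rw [Finset.sum_ite_eq' (range N) 0 (fun _ => (1 : ℝ)), if_pos (mem_range.2 hN), one_mul] at h
  rw [← h]
  apply Finset.sum_congr rfl
  intro n _
  have h1 := coeff_mul_expand (P := (1 : ℝ[X])) (N := N) (by simpa using hN) P n
  rw [one_mul] at h1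
  rw [h1, coeff_one]
  split_ifs <;> simp

theorem sum_abs_qc {K : ℕ} (hK : 2 ≤ K) : ∑ l ∈ range (K + 1), |qc K l| ≤ 5 := by
  have h0 : (0 : ℝ) < K := by positivity
  rw [Finset.sum_range_succ', qc_zero, abs_one]
  have := Finset.sum_le_sum (s := range K) fun l _ => abs_qc hK (show 1 ≤ l + 1 by omega)
  rw [Finset.sum_const, card_range, nsmul_eq_mul] at this
  have e : (K : ℝ) * (4 / K) = 4 := by field_simp
  rw [e] at this
  linarith

theorem norm_op_Q (i : ℕ) : ‖op (expand ℝ (N2 i) (Q (K i)))‖ ≤ 5 := by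
  refine (norm_op_expand_le _ (N2_pos i) (Nat.lt_succ_of_le (natDegree_Q (K i)))).trans ?_
  refine le_trans (le_of_eq ?_) (sum_abs_qc (two_le_K i))
  apply Finset.sum_congr rfl
  intro l _
  rw [coeff_Q]

theorem norm_op_G (i : ℕ) : ‖op (G i)‖ ≤ β i := by
  refine (norm_op_expand_le _ (N1_pos i)
    (Nat.lt_succ_of_le (natDegree_Gh (L i) (β i / L i)))).trans (le_of_eq ?_)
  have hL : (0 : ℝ) < L i := by exact_mod_cast L_pos i
  have hβ := β_pos i
  have : ∀ k ∈ range (L i + 1), |(Gh (L i) (β i / L i)).coeff k| = β i / L i * ind (L i) k := by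
    intro k _
    rw [coeff_Gh, abs_of_nonneg]
    exact mul_nonneg (div_nonneg hβ.le hL.le) (ind_nonneg (L i) k)
  rw [Finset.sum_congr rfl this, ← Finset.mul_sum, sum_ind (L i) (Nat.lt_succ_self _)]
  field_simp

theorem β_succ (i : ℕ) : 10 * β i ≤ β (i + 1) := by
  unfold β
  rw [s_succ]
  push_cast
  rw [mul_pow]
  have h0 : (0 : ℝ) ≤ (s i : ℝ) ^ 48 := by positivity
  have h1 : (10 : ℝ) ≤ 2 ^ 48 := by norm_num
  exact mul_le_mul_of_nonneg_right h1 h0

theorem norm_op_M (i : ℕ) : ‖op (M i)‖ ≤ β i := by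
  induction i with
  | zero =>
    have : op (M 0) = 1 := op_one
    rw [this]
    refine (ContinuousLinearMap.norm_id_le (𝕜 := ℂ) (E := E)).trans ?_
    unfold β
    apply one_le_pow₀
    exact_mod_cast s_pos 0
  | succ i ih =>
    rw [M_succ, op_mul]
    refine (norm_mul_le _ _).trans ?_
    have h1 : ‖op (M' i)‖ ≤ 2 * β i := by
      unfold M'
      rw [op_add]
      refine (norm_add_le _ _).trans ?_
      have := norm_op_G i
      linarith
    have h2 := norm_op_Q i
    have h3 := β_succ i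
    have h4 := β_pos i
    calc ‖op (M' i)‖ * ‖op (expand ℝ (N2 i) (Q (K i)))‖ ≤ (2 * β i) * 5 :=
          mul_le_mul h1 h2 (norm_nonneg _) (by positivity)
      _ ≤ β (i + 1) := by linarith

theorem norm_op_M' (i : ℕ) : ‖op (M' i)‖ ≤ 2 * β i := by
  unfold M'
  rw [op_add]
  refine (norm_add_le _ _).trans ?_
  have := norm_op_G i
  have := norm_op_M i
  linarith

end

end Pool.Agent.V5helper91.BR
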