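import Pool.Agent.V5helper91.BR.Pair

/-!
# The Pythagorean pair of a function of the Smirnov class, II
-/

set_option autoImplicit false

namespace Pool.Agent.V5helper91.BR

open scoped InnerProductSpace ComplexConjugate
open Finset Filter

noncomputable section

/-- the first hypothesis: `‖a g‖² + ‖b g‖² = ‖g‖²` -/
def Iso (a b : ℕ → ℂ) : Prop :=
  ∀ g : ℕ → ℂ, Summable (fun n => ‖g n‖ ^ 2) →
      Summable (fun n => ‖cv a g n‖ ^ 2) ∧ Summable (fun n => ‖cv b g n‖ ^ 2) ∧
      (∑' n, ‖cv a g n‖ ^ 2) + (∑' n, ‖cv b g n‖ ^ 2) = ∑' n, ‖g n‖ ^ 2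

/-- the second hypothesis: `a` is cyclic -/
def Cyc (a : ℕ → ℂ) : Prop :=
  ∀ g : ℕ → ℂ, Summable (fun n => ‖g n‖ ^ 2) →
      (∀ j : ℕ, ∑' n, a n * starRingEnd ℂ (g (n + j)) = 0) → g = 0

theorem inner_sh (a g : E) (j : ℕ) :
    ⟪g, sh j a⟫_ℂ = ∑' n, a n * starRingEnd ℂ (g (n + j)) := by
  have h := inner_E g (sh j a)
  have hi : Function.Injective (fun n : ℕ => n + j) := fun a b h => by simpa using h
  rw [← hi.hasSum_iff] at h
  · rw [← h.tsum_eq]
    apply tsum_congr
    intro n
    simp only [Function.comp, sh_apply, shF_add]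
    ring
  · intro n hn
    have : ¬ j ≤ n := fun h => hn ⟨n - j, by simp [Nat.sub_add_cancel h]⟩
    simp [shF, this]

theorem lin_fst {k : X} (ho : Orthonormal ℂ fun j => sX j k) (g : E) (n : ℕ) :
    (ho.orthogonalFamily.linearIsometry g).fst n = cv g k.fst n := by
  have h := ho.orthogonalFamily.hasSum_linearIsometry g
  have h1 := ((ev n).comp (WithLp.fstL 2 ℂ E E)).hasSum h
  have h2 : HasSum (fun j => g j * shF j k.fst n) (cv g k.fst n) := by
    have : cv g k.fst n = ∑ j ∈ range (n + 1), g j * shF j k.fst n := by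
      apply Finset.sum_congr rfl
      intro j hj
      rw [mem_range] at hj
      simp only [shF]
      rw [if_pos (by omega)]
    rw [this]
    apply hasSum_sum_of_ne_finset_zero
    intro j hj
    rw [mem_range] at hj
    simp only [shF]
    rw [if_neg (by omega), mul_zero]
  refine HasSum.unique ?_ h2
  convert h1 using 1
  · funext j
    have : (ev n ∘SL WithLp.fstL 2 ℂ E E) ((LinearIsometry.toSpanSingleton ℂ X (ho.1 j)) (g j)) =
        ev n ((g j • sX j k).fst) := rfl
    rw [this, WithLp.smul_fst, ev_apply, lp.coeFn_smul, Pi.smul_apply, smul_eq_mul, sX_fst,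
      sh_apply]
  · exact (ev_apply n _).symm

theorem lin_snd {k : X} (ho : Orthonormal ℂ fun j => sX j k) (g : E) (n : ℕ) :
    (ho.orthogonalFamily.linearIsometry g).snd n = cv g k.snd n := by
  have h := ho.orthogonalFamily.hasSum_linearIsometry g
  have h1 := ((ev n).comp (WithLp.sndL 2 ℂ E E)).hasSum h
  have h2 : HasSum (fun j => g j * shF j k.snd n) (cv g k.snd n) := by
    have : cv g k.snd n = ∑ j ∈ range (n + 1), g j * shF j k.snd n := by
      apply Finset.sum_congr rfl
      intro j hj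
      rw [mem_range] at hj
      simp only [shF]
      rw [if_pos (by omega)]
    rw [this]
    apply hasSum_sum_of_ne_finset_zero
    intro j hj
    rw [mem_range] at hj
    simp only [shF]
    rw [if_neg (by omega), mul_zero]
  refine HasSum.unique ?_ h2
  convert h1 using 1
  · funext j
    have : (ev n ∘SL WithLp.sndL 2 ℂ E E) ((LinearIsometry.toSpanSingleton ℂ X (ho.1 j)) (g j)) =
        ev n ((g j • sX j k).snd) := rfl
    rw [this, WithLp.smul_snd, ev_apply, lp.coeFn_smul, Pi.smul_apply, smul_eq_mul, sX_snd,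
      sh_apply]
  · exact (ev_apply n _).symm

theorem iso_of_orthonormal {k : X} (ho : Orthonormal ℂ fun j => sX j k) :
    Iso (fun n => k.fst n) (fun n => k.snd n) := by
  intro g hg
  have e1 : ∀ n, cv (fun n => k.fst n) g n =
      (ho.orthogonalFamily.linearIsometry (mkE g hg)).fst n := fun n => by
    rw [lin_fst ho, cv_comm]; rfl
  have e2 : ∀ n, cv (fun n => k.snd n) g n =
      (ho.orthogonalFamily.linearIsometry (mkE g hg)).snd n := fun n => by
    rw [lin_snd ho, cv_comm]; rfl
  simp only [e1, e2]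
  refine ⟨summable_sq _, summable_sq _, ?_⟩
  rw [(hasSum_sq _).tsum_eq, (hasSum_sq _).tsum_eq, ← norm_X, LinearIsometry.norm_map, norm_mkE]

theorem cyc_of {φ : ℕ → ℂ} (hD : Dense φ) {k : X} (hk : k ∈ KK φ)
    (h2 : ∀ x ∈ KK φ, ⟪k, x⟫_ℂ = 0 ↔ x.fst 0 = 0) : Cyc (fun n => k.fst n) := by
  intro g hg hz
  set G : E := mkE g hg with hG
  have h0 : ∀ j, ⟪G, sh j k.fst⟫_ℂ = 0 := fun j => by
    rw [inner_sh]; exact hz j
  -- the closed span of the shifts
  let W : Submodule ℂ X := (Submodule.span ℂ (Set.range fun j => sX j k)).topologicalClosure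
  have hWc : IsClosed (W : Set X) := Submodule.isClosed_topologicalClosure _
  have : CompleteSpace W := hWc.completeSpace_coe
  have hWK : W ≤ KK φ := by
    apply Submodule.topologicalClosure_minimal _ _ (isClosed_KK φ)
    rw [Submodule.span_le]
    rintro _ ⟨j, rfl⟩
    exact sX_mem hk j
  have hKW : KK φ ≤ W := by
    intro x hx
    have h3 : x - W.starProjection x ∈ Wᗮ := W.sub_starProjection_mem_orthogonal x
    have h4 : W.starProjection x ∈ W := W.starProjection_apply_mem x
    have h5 : x - W.starProjection x = 0 := by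
      apply eq_zero_of_orth h2 ((KK φ).sub_mem hx (hWK h4))
      intro j
      exact h3 _ (subset_closure (Submodule.subset_span ⟨j, rfl⟩))
    rw [sub_eq_zero] at h5
    rw [h5]; exact h4
  have hGz : G = 0 := by
    apply hD
    intro h hs
    have hm := hKW (mem_dom hs)
    -- the functional `x ↦ ⟪G, x.fst⟫` vanishes on `W`
    have hker : W ≤ LinearMap.ker ((innerSL ℂ G).comp (WithLp.fstL 2 ℂ E E)).toLinearMap := by
      apply Submodule.topologicalClosure_minimal
      · rw [Submodule.span_le]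
        rintro _ ⟨j, rfl⟩
        simp only [SetLike.mem_coe, LinearMap.mem_ker]
        exact h0 j
      · exact ContinuousLinearMap.isClosed_ker _
    have h6 := hker hm
    rw [LinearMap.mem_ker] at h6
    have h7 : ⟪G, h⟫_ℂ = 0 := h6
    rw [← inner_conj_symm, h7, map_zero]
  funext n
  have : G n = 0 := by rw [hGz]; rfl
  simpa [hG] using this

/-- Existence of the Pythagorean pair. -/
theorem exists_pair {φ : ℕ → ℂ} (hD : Dense φ) : ∃ a b : ℕ → ℂ, Iso a b ∧ Cyc a ∧
    0 < (a 0).re ∧ (a 0).im = 0 ∧ ∀ n, cv a φ n = b n := by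
  obtain ⟨k, hk, h1, h3, h4, h2⟩ := exists_wandering hD
  refine ⟨fun n => k.fst n, fun n => k.snd n, iso_of_orthonormal (orthonormal_sX hk h1 h2),
    cyc_of hD hk h2, h3, h4, fun n => ?_⟩
  rw [cv_comm]
  exact mem_KK.1 hk n

end

end Pool.Agent.V5helper91.BR
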