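import Pool.Agent.V5helper91.BR.Dig

/-!
# The parameters and the polynomials
-/

set_option autoImplicit false

namespace Pool.Agent.V5helper91.BR

open Finset Filter Polynomial

noncomputable section

/-! ### The coefficients with a double zero at one -/

/-- `∑ (j + 1)` and `∑ (j + 1) ^ 2` -/
theorem sum_one (K : ℕ) : ∑ j ∈ range K, ((j : ℝ) + 1) = K * (K + 1) / 2 := by
  induction K with
  | zero => simp
  | succ K ih => rw [Finset.sum_range_succ, ih]; push_cast; ring

theorem sum_two (K : ℕ) : ∑ j ∈ range K, ((j : ℝ) + 1) ^ 2 =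
    (K : ℝ) * (K + 1) * (2 * K + 1) / 6 := by
  induction K with
  | zero => simp
  | succ K ih => rw [Finset.sum_range_succ, ih]; push_cast; ring

/-- the weights: `∑ p = 1`, `∑ j p j = 0` -/
def pw (K j : ℕ) : ℝ := (4 * K + 2 - 6 * j) / (K * (K - 1))

theorem sum_pw {K : ℕ} (hK : 2 ≤ K) : ∑ j ∈ range K, pw K (j + 1) = 1 := by
  have h1 : (2 : ℝ) ≤ K := by exact_mod_cast hK
  have h2 : (K : ℝ) * (K - 1) ≠ 0 := by
    apply mul_ne_zero <;> intro h <;> linarith
  unfold pw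
  rw [← Finset.sum_div, div_eq_one_iff_eq h2]
  have : ∀ j : ℕ, (4 * (K : ℝ) + 2 - 6 * ((j + 1 : ℕ) : ℝ)) = (4 * K + 2) - 6 * ((j : ℝ) + 1) := by
    intro j; push_cast; ring
  simp only [this]
  rw [Finset.sum_sub_distrib, ← Finset.mul_sum, sum_one, Finset.sum_const, card_range, nsmul_eq_mul]
  ring

theorem sum_mul_pw {K : ℕ} (hK : 2 ≤ K) : ∑ j ∈ range K, ((j : ℝ) + 1) * pw K (j + 1) = 0 := by
  have h1 : (2 : ℝ) ≤ K := by exact_mod_cast hK
  have h2 : (K : ℝ) * (K - 1) ≠ 0 := by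
    apply mul_ne_zero <;> intro h <;> linarith
  have : ∀ j : ℕ, ((j : ℝ) + 1) * pw K (j + 1) =
      ((4 * K + 2) * ((j : ℝ) + 1) - 6 * ((j : ℝ) + 1) ^ 2) / (K * (K - 1)) := by
    intro j; unfold pw; push_cast; ring
  simp only [this]
  rw [← Finset.sum_div, Finset.sum_sub_distrib, ← Finset.mul_sum, ← Finset.mul_sum, sum_one,
    sum_two, div_eq_zero_iff]
  left
  ring

theorem abs_pw {K j : ℕ} (hK : 2 ≤ K) (h1 : 1 ≤ j) (h2 : j ≤ K) : |pw K j| ≤ 4 / K := by
  have h3 : (2 : ℝ) ≤ K := by exact_mod_cast hK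
  have h4 : (1 : ℝ) ≤ j := by exact_mod_cast h1
  have h5 : (j : ℝ) ≤ K := by exact_mod_cast h2
  have h6 : (0 : ℝ) < K * (K - 1) := by nlinarith
  unfold pw
  rw [abs_div, abs_of_pos h6, div_le_div_iff₀ h6 (by linarith)]
  have h7 : |4 * (K : ℝ) + 2 - 6 * j| ≤ 4 * (K - 1) := by
    rw [abs_le]; constructor <;> linarith
  calc |4 * (K : ℝ) + 2 - 6 * j| * K ≤ 4 * (K - 1) * K := by
        apply mul_le_mul_of_nonneg_right h7 (by linarith)
    _ = 4 * (K * (K - 1)) := by ring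

/-- the coefficients of the kill polynomial -/
def qc (K l : ℕ) : ℝ := if l = 0 then 1 else if l ≤ K then - pw K l else 0

theorem qc_zero (K : ℕ) : qc K 0 = 1 := by simp [qc]

theorem qc_succ {K l : ℕ} (h : l < K) : qc K (l + 1) = - pw K (l + 1) := by
  simp only [qc]
  rw [if_neg (by omega), if_pos (by omega)]

theorem qc_large {K l : ℕ} (h : K < l) : qc K l = 0 := by
  simp only [qc]
  rw [if_neg (by omega), if_neg (by omega)]

theorem abs_qc {K l : ℕ} (hK : 2 ≤ K) (h1 : 1 ≤ l) : |qc K l| ≤ 4 / K := by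
  by_cases h : l ≤ K
  · simp only [qc]
    rw [if_neg (by omega), if_pos h, abs_neg]
    exact abs_pw hK h1 h
  · rw [qc_large (by omega), abs_zero]
    positivity

theorem sum_qc_succ {K : ℕ} (hK : 2 ≤ K) : ∑ l ∈ range K, qc K (l + 1) = -1 := by
  rw [Finset.sum_congr rfl (g := fun l => - pw K (l + 1)) (fun l hl => qc_succ (mem_range.1 hl)),
    Finset.sum_neg_distrib, sum_pw hK]

/-- the kill polynomial -/
def Q (K : ℕ) : ℝ[X] := ∑ l ∈ range (K + 1), monomial l (qc K l)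

theorem coeff_Q (K l : ℕ) : (Q K).coeff l = qc K l := by
  unfold Q
  rw [finsetSum_coeff]
  simp only [coeff_monomial]
  rw [Finset.sum_ite_eq' (range (K + 1)) l (fun l => qc K l)]
  split_ifs with h
  · rfl
  · rw [mem_range] at h
    rw [qc_large (by omega)]

theorem natDegree_Q (K : ℕ) : (Q K).natDegree ≤ K := by
  rw [natDegree_le_iff_coeff_eq_zero]
  intro N hN
  rw [coeff_Q, qc_large hN]

theorem norm_Q {K : ℕ} (hK : 2 ≤ K) : ‖toE (Q K)‖ ^ 2 ≤ 1 + 16 / K := by
  have h0 : (0 : ℝ) < K := by positivity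
  rw [norm_toE (Q K) (Nat.lt_succ_of_le (natDegree_Q K)), Finset.sum_range_succ', coeff_Q, qc_zero]
  have : ∑ l ∈ range K, (Q K).coeff (l + 1) ^ 2 ≤ ∑ l ∈ range K, (4 / (K : ℝ)) ^ 2 := by
    apply Finset.sum_le_sum
    intro l _
    rw [coeff_Q, ← sq_abs]
    exact pow_le_pow_left₀ (abs_nonneg _) (abs_qc hK (by omega)) 2
  rw [Finset.sum_const, card_range, nsmul_eq_mul] at this
  have e : (K : ℝ) * (4 / K) ^ 2 = 16 / K := by field_simp; ring
  rw [e] at this
  linarith

/-! ### Second differences -/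

theorem taylor (F : ℕ → ℝ) {δ : ℝ} (hF : ∀ l, |F (l + 2) - 2 * F (l + 1) + F l| ≤ δ) (l j : ℕ) :
    |F (l + j) - F l - j * (F (l + 1) - F l)| ≤ δ * j ^ 2 := by
  have hδ : 0 ≤ δ := (abs_nonneg _).trans (hF 0)
  have h1 : ∀ j : ℕ, |F (l + j + 1) - F (l + j) - (F (l + 1) - F l)| ≤ δ * j := by
    intro j
    induction j with
    | zero => simp
    | succ j ih =>
      have e : F (l + (j + 1) + 1) - F (l + (j + 1)) - (F (l + 1) - F l) =
          (F (l + j + 2) - 2 * F (l + j + 1) + F (l + j)) +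
            (F (l + j + 1) - F (l + j) - (F (l + 1) - F l)) := by
        rw [show l + (j + 1) + 1 = l + j + 2 by ring, show l + (j + 1) = l + j + 1 by ring]; ring
      rw [e]
      refine (abs_add_le _ _).trans ?_
      have := hF (l + j)
      push_cast
      linarith
  induction j with
  | zero => simp
  | succ j ih =>
    have e : F (l + (j + 1)) - F l - ((j + 1 : ℕ) : ℝ) * (F (l + 1) - F l) =
        (F (l + j) - F l - j * (F (l + 1) - F l)) +
          (F (l + j + 1) - F (l + j) - (F (l + 1) - F l)) := by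
      rw [show l + (j + 1) = l + j + 1 by ring]; push_cast; ring
    rw [e]
    refine (abs_add_le _ _).trans ?_
    have h2 := h1 j
    push_cast
    have hj : (0 : ℝ) ≤ j := by positivity
    nlinarith

/-- The kill polynomial annihilates linear sequences. -/
theorem corr_bound {K : ℕ} (hK : 2 ≤ K) (F : ℕ → ℝ) {δ : ℝ}
    (hF : ∀ l, |F (l + 2) - 2 * F (l + 1) + F l| ≤ δ) (n : ℕ) :
    |∑ l ∈ range (K + 1), qc K l * F (n + l)| ≤ 4 * K ^ 2 * δ := by
  have hδ : 0 ≤ δ := (abs_nonneg _).trans (hF 0)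
  have h0 : (0 : ℝ) < K := by positivity
  rw [Finset.sum_range_succ', qc_zero, add_zero, one_mul]
  have e : ∑ l ∈ range K, qc K (l + 1) * F (n + (l + 1)) + F n =
      ∑ l ∈ range K, qc K (l + 1) *
        (F (n + (l + 1)) - F n - ((l + 1 : ℕ) : ℝ) * (F (n + 1) - F n)) := by
    have e1 : ∑ l ∈ range K, qc K (l + 1) *
        (F (n + (l + 1)) - F n - ((l + 1 : ℕ) : ℝ) * (F (n + 1) - F n)) =
        ∑ l ∈ range K, qc K (l + 1) * F (n + (l + 1)) - (∑ l ∈ range K, qc K (l + 1)) * F n -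
          (∑ l ∈ range K, ((l : ℝ) + 1) * qc K (l + 1)) * (F (n + 1) - F n) := by
      rw [Finset.sum_mul, Finset.sum_mul, ← Finset.sum_sub_distrib, ← Finset.sum_sub_distrib]
      apply Finset.sum_congr rfl
      intro l _
      push_cast
      ring
    have e2 : ∑ l ∈ range K, ((l : ℝ) + 1) * qc K (l + 1) = 0 := by
      rw [Finset.sum_congr rfl (g := fun l : ℕ => - (((l : ℝ) + 1) * pw K (l + 1)))
        (fun l hl => by rw [qc_succ (mem_range.1 hl)]; ring), Finset.sum_neg_distrib,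
        sum_mul_pw hK, neg_zero]
    rw [e1, sum_qc_succ hK, e2]
    ring
  rw [e]
  refine (Finset.abs_sum_le_sum_abs _ _).trans ?_
  have h1 : ∀ l ∈ range K, |qc K (l + 1) *
      (F (n + (l + 1)) - F n - ((l + 1 : ℕ) : ℝ) * (F (n + 1) - F n))| ≤ 4 / K * (δ * K ^ 2) := by
    intro l hl
    rw [mem_range] at hl
    rw [abs_mul]
    apply mul_le_mul (abs_qc hK (by omega)) _ (abs_nonneg _) (by positivity)
    refine (taylor F hF n (l + 1)).trans ?_
    apply mul_le_mul_of_nonneg_left _ hδ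
    apply pow_le_pow_left₀ (by positivity)
    exact_mod_cast hl
  refine (Finset.sum_le_sum h1).trans ?_
  rw [Finset.sum_const, card_range, nsmul_eq_mul]
  apply le_of_eq
  field_simp

/-- the quadratic cut-off -/
def Fc (R j : ℕ) : ℝ := (((R - j : ℕ) : ℝ) / R) ^ 2

theorem Fc_zero {R : ℕ} (hR : 0 < R) : Fc R 0 = 1 := by
  have : (0 : ℝ) < R := by exact_mod_cast hR
  simp [Fc, this.ne']

theorem Fc_large {R j : ℕ} (h : R ≤ j) : Fc R j = 0 := by
  simp [Fc, Nat.sub_eq_zero_of_le h]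

theorem Fc_nonneg (R j : ℕ) : 0 ≤ Fc R j := by unfold Fc; positivity

theorem Fc_le_one {R : ℕ} (hR : 0 < R) (j : ℕ) : Fc R j ≤ 1 := by
  have h : (0 : ℝ) < R := by exact_mod_cast hR
  unfold Fc
  apply pow_le_one₀ (by positivity)
  rw [div_le_one h]
  exact_mod_cast Nat.sub_le R j

theorem one_sub_Fc {R : ℕ} (hR : 0 < R) (j : ℕ) (hj : j ≤ R) : 1 - Fc R j ≤ 2 * j / R := by
  have h : (0 : ℝ) < R := by exact_mod_cast hR
  unfold Fc
  rw [Nat.cast_sub hj]
  have e : ((R : ℝ) - j) / R = 1 - j / R := by field_simp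
  rw [e, mul_div_assoc]
  have : 0 ≤ ((j : ℝ) / R) ^ 2 := by positivity
  nlinarith

theorem Fc_second {R : ℕ} (hR : 0 < R) (l : ℕ) :
    |Fc R (l + 2) - 2 * Fc R (l + 1) + Fc R l| ≤ 2 / R ^ 2 := by
  have h : (0 : ℝ) < R := by exact_mod_cast hR
  have e : Fc R (l + 2) - 2 * Fc R (l + 1) + Fc R l =
      ((((R - (l + 2) : ℕ) : ℝ)) ^ 2 - 2 * (((R - (l + 1) : ℕ) : ℝ)) ^ 2 +
        (((R - l : ℕ) : ℝ)) ^ 2) / R ^ 2 := by
    unfold Fc; field_simp
  rw [e, abs_div, abs_of_pos (by positivity : (0 : ℝ) < (R : ℝ) ^ 2)]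
  apply div_le_div_of_nonneg_right _ (by positivity)
  rcases lt_or_ge R (l + 1) with h1 | h1
  · have a1 : R - (l + 2) = 0 := by omega
    have a2 : R - (l + 1) = 0 := by omega
    have a3 : R - l = 0 := by omega
    rw [a1, a2, a3]; norm_num
  · rcases lt_or_ge R (l + 2) with h2 | h2
    · have a1 : R - (l + 2) = 0 := by omega
      have a2 : R - (l + 1) = 0 := by omega
      have a3 : R - l = 1 := by omega
      rw [a1, a2, a3]; norm_num
    · obtain ⟨x, rfl⟩ := Nat.exists_eq_add_of_le h2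
      have a1 : l + 2 + x - (l + 2) = x := by omega
      have a2 : l + 2 + x - (l + 1) = x + 1 := by omega
      have a3 : l + 2 + x - l = x + 2 := by omega
      rw [a1, a2, a3]
      push_cast
      rw [abs_le]
      constructor <;> nlinarith

end

end Pool.Agent.V5helper91.BR
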