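import Pool.Agent.V5helper91.BR.Par

/-!
# The function `φ` and the testers
-/

set_option autoImplicit false

namespace Pool.Agent.V5helper91.BR

open Finset Filter Polynomial

noncomputable section

/-! ### Parameters -/

def s (i : ℕ) : ℕ := 2 ^ (i + 1)
def K (i : ℕ) : ℕ := s i ^ 2
def L (i : ℕ) : ℕ := s i ^ 60
def R (i : ℕ) : ℕ := s i ^ 32
def β (i : ℕ) : ℝ := (s i : ℝ) ^ 48

def A : ℕ → ℕ
  | 0 => 1
  | i + 1 => R i * (2 * ((L i + 1) * (2 * A i)))

def N1 (i : ℕ) : ℕ := 2 * A i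
def N2 (i : ℕ) : ℕ := 2 * ((L i + 1) * N1 i)

theorem A_succ (i : ℕ) : A (i + 1) = R i * N2 i := rfl

theorem two_le_s (i : ℕ) : 2 ≤ s i := by
  unfold s
  calc 2 = 2 ^ 1 := rfl
    _ ≤ 2 ^ (i + 1) := Nat.pow_le_pow_right (by norm_num) (by omega)

theorem s_succ (i : ℕ) : s (i + 1) = 2 * s i := by unfold s; rw [pow_succ]; ring

theorem s_pos (i : ℕ) : 0 < s i := by have := two_le_s i; omega

theorem two_le_K (i : ℕ) : 2 ≤ K i := by
  unfold K
  calc 2 ≤ s i := two_le_s i
    _ ≤ s i ^ 2 := Nat.le_self_pow (by norm_num) _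

theorem K_pos (i : ℕ) : 0 < K i := by have := two_le_K i; omega

theorem L_pos (i : ℕ) : 0 < L i := pow_pos (s_pos i) _

theorem R_pos (i : ℕ) : 0 < R i := pow_pos (s_pos i) _

theorem β_pos (i : ℕ) : 0 < β i := by
  have : (0 : ℝ) < s i := by exact_mod_cast s_pos i
  unfold β; positivity

theorem K_lt_R (i : ℕ) : K i + 1 ≤ R i := by
  unfold K R
  have h := two_le_s i
  calc s i ^ 2 + 1 ≤ s i ^ 2 * 2 := by nlinarith
    _ ≤ s i ^ 2 * s i := Nat.mul_le_mul_left _ h
    _ = s i ^ 3 := by ring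
    _ ≤ s i ^ 32 := Nat.pow_le_pow_right (s_pos i) (by norm_num)

theorem K_le_L (i : ℕ) : K i ≤ L i := Nat.pow_le_pow_right (s_pos i) (by norm_num)

theorem A_pos (i : ℕ) : 0 < A i := by
  induction i with
  | zero => simp [A]
  | succ i ih =>
    rw [A_succ]
    have := R_pos i
    unfold N2 N1
    positivity

theorem N1_pos (i : ℕ) : 0 < N1 i := by have := A_pos i; unfold N1; omega

theorem A_lt_N1 (i : ℕ) : A i < N1 i := by have := A_pos i; unfold N1; omega

theorem half_N2 (i : ℕ) : N2 i = 2 * ((L i + 1) * N1 i) := rfl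

theorem N1_lt_half (i : ℕ) : N1 i ≤ (L i + 1) * N1 i := Nat.le_mul_of_pos_left _ (by omega)

theorem N1_lt_N2 (i : ℕ) : N1 i < N2 i := by
  have h1 := N1_lt_half i
  have h2 := N1_pos i
  rw [half_N2]
  omega

theorem N2_pos (i : ℕ) : 0 < N2 i := (N1_pos i).trans (N1_lt_N2 i)

theorem N2_le_A (i : ℕ) : N2 i ≤ A (i + 1) := by
  rw [A_succ]; exact Nat.le_mul_of_pos_left _ (R_pos i)

theorem A_lt_succ (i : ℕ) : A i < A (i + 1) :=
  (A_lt_N1 i).trans ((N1_lt_N2 i).trans_le (N2_le_A i))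

theorem A_mono : StrictMono A := strictMono_nat_of_lt_succ A_lt_succ

theorem lt_A (i : ℕ) : i < A i := by
  induction i with
  | zero => exact A_pos 0
  | succ i ih => exact lt_of_le_of_lt ih (A_lt_succ i)

theorem N1_mono : StrictMono N1 := fun a b h => by
  have := A_mono h
  unfold N1; omega

/-! ### Polynomials -/

/-- indicator of `1 ≤ l ≤ L` -/
def ind (L l : ℕ) : ℝ := if 1 ≤ l ∧ l ≤ L then 1 else 0

theorem ind_large {L l : ℕ} (h : L < l) : ind L l = 0 := by
  unfold ind; rw [if_neg (by omega)]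

theorem ind_zero (L : ℕ) : ind L 0 = 0 := by simp [ind]

theorem ind_sq (L l : ℕ) : ind L l * ind L l = ind L l := by
  unfold ind; split_ifs <;> simp

theorem ind_nonneg (L l : ℕ) : 0 ≤ ind L l := by unfold ind; split_ifs <;> simp

theorem sum_ind (L : ℕ) {B : ℕ} (hB : L < B) : ∑ l ∈ range B, ind L l = L := by
  have h : ∑ l ∈ range B, ind L l = ∑ l ∈ range (L + 1), ind L l := by
    symm
    apply Finset.sum_subset
    · intro x hx; rw [mem_range] at *; omega
    · intro x _ hx; rw [mem_range] at hx; exact ind_large (by omega)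
  rw [h, Finset.sum_range_succ', ind_zero, add_zero]
  rw [Finset.sum_congr rfl (g := fun _ => (1 : ℝ))
    (fun l hl => by rw [mem_range] at hl; unfold ind; rw [if_pos (by omega)])]
  simp

/-- `∑ c w ^ l`, `1 ≤ l ≤ L` -/
def Gh (L : ℕ) (c : ℝ) : ℝ[X] := ∑ l ∈ range (L + 1), monomial l (c * ind L l)

theorem coeff_Gh (L : ℕ) (c : ℝ) (l : ℕ) : (Gh L c).coeff l = c * ind L l := by
  unfold Gh
  rw [finsetSum_coeff]
  simp only [coeff_monomial]
  rw [Finset.sum_ite_eq' (range (L + 1)) l (fun l => c * ind L l)]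
  split_ifs with h
  · rfl
  · rw [mem_range] at h
    rw [ind_large (by omega), mul_zero]

theorem natDegree_Gh (L : ℕ) (c : ℝ) : (Gh L c).natDegree ≤ L := by
  rw [natDegree_le_iff_coeff_eq_zero]
  intro N hN
  rw [coeff_Gh, ind_large hN, mul_zero]

def G (i : ℕ) : ℝ[X] := expand ℝ (N1 i) (Gh (L i) (β i / L i))

def M : ℕ → ℝ[X]
  | 0 => 1
  | i + 1 => (M i + G i) * expand ℝ (N2 i) (Q (K i))

def M' (i : ℕ) : ℝ[X] := M i + G i

theorem M_succ (i : ℕ) : M (i + 1) = M' i * expand ℝ (N2 i) (Q (K i)) := rfl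

/-- the indicator of the frequencies of the growth block -/
def gi (i n : ℕ) : ℝ := (if n % N1 i = 0 then 1 else 0) * ind (L i) (n / N1 i)

theorem coeff_G (i n : ℕ) : (G i).coeff n = β i / L i * gi i n := by
  have h := coeff_mul_expand (P := (1 : ℝ[X])) (N := N1 i) (by simpa using N1_pos i)
    (Gh (L i) (β i / L i)) n
  rw [one_mul] at h
  unfold G
  rw [h, coeff_Gh, coeff_one]
  unfold gi
  split_ifs <;> ring

theorem natDegree_G (i : ℕ) : (G i).natDegree ≤ L i * N1 i := by
  unfold G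
  rw [natDegree_expand]
  exact Nat.mul_le_mul_right _ (natDegree_Gh _ _)

theorem natDegree_M' {i : ℕ} (h : (M i).natDegree < A i) :
    (M' i).natDegree < (L i + 1) * N1 i := by
  unfold M'
  refine (natDegree_add_le _ _).trans_lt ?_
  rw [max_lt_iff]
  constructor
  · exact h.trans ((A_lt_N1 i).trans_le (N1_lt_half i))
  · refine (natDegree_G i).trans_lt ?_
    rw [add_mul]
    have := N1_pos i
    omega

theorem natDegree_M (i : ℕ) : (M i).natDegree < A i := by
  induction i with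
  | zero => simp [M, A]
  | succ i ih =>
    rw [M_succ, A_succ]
    have h1 := natDegree_M' ih
    calc (M' i * expand ℝ (N2 i) (Q (K i))).natDegree
        ≤ (M' i).natDegree + (expand ℝ (N2 i) (Q (K i))).natDegree := natDegree_mul_le
      _ ≤ (M' i).natDegree + K i * N2 i := by
          rw [natDegree_expand]
          exact Nat.add_le_add_left (Nat.mul_le_mul_right _ (natDegree_Q _)) _
      _ < N2 i + K i * N2 i := by
          have := half_N2 i
          omega
      _ = (K i + 1) * N2 i := by ring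
      _ ≤ R i * N2 i := Nat.mul_le_mul_right _ (K_lt_R i)

theorem deg_M' (i : ℕ) : (M' i).natDegree < (L i + 1) * N1 i := natDegree_M' (natDegree_M i)

theorem deg_M'_lt (i : ℕ) : (M' i).natDegree < N2 i := by
  have h1 := deg_M' i
  have := half_N2 i
  omega

theorem gi_small {i n : ℕ} (h : n < N1 i) : gi i n = 0 := by
  unfold gi
  rw [Nat.div_eq_of_lt h, ind_zero, mul_zero]

theorem gi_nonneg (i n : ℕ) : 0 ≤ gi i n := by
  unfold gi
  apply mul_nonneg _ (ind_nonneg _ _)
  split_ifs <;> simp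

theorem gi_sq (i n : ℕ) : gi i n * gi i n = gi i n := by
  unfold gi
  have h := ind_sq (L i) (n / N1 i)
  split_ifs
  · rw [one_mul, h]
  · ring

theorem gi_large {i n : ℕ} (h : (L i + 1) * N1 i ≤ n) : gi i n = 0 := by
  unfold gi
  rw [ind_large, mul_zero]
  rw [Nat.lt_iff_add_one_le]
  exact (Nat.le_div_iff_mul_le (N1_pos i)).2 h

theorem M'_coeff (i n : ℕ) : (M' i).coeff n = (M i).coeff n + β i / L i * gi i n := by
  unfold M'; rw [coeff_add, coeff_G]

theorem M'_lt {i n : ℕ} (h : n < N1 i) : (M' i).coeff n = (M i).coeff n := by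
  rw [M'_coeff, gi_small h, mul_zero, add_zero]

theorem M_ge {i n : ℕ} (h : A i ≤ n) : (M i).coeff n = 0 :=
  coeff_eq_zero_of_natDegree_lt ((natDegree_M i).trans_le h)

theorem M'_ge {i n : ℕ} (h : A i ≤ n) : (M' i).coeff n = β i / L i * gi i n := by
  rw [M'_coeff, M_ge h, zero_add]

theorem M'_large {i n : ℕ} (h : (L i + 1) * N1 i ≤ n) : (M' i).coeff n = 0 :=
  coeff_eq_zero_of_natDegree_lt ((deg_M' i).trans_le h)

theorem M'_mul_gi (i n : ℕ) : (M' i).coeff n * gi i n = β i / L i * gi i n := by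
  rcases lt_or_ge n (A i) with h | h
  · rw [gi_small (h.trans (A_lt_N1 i))]; ring
  · rw [M'_ge h, mul_assoc, gi_sq]

theorem M_succ_coeff (i n : ℕ) :
    (M (i + 1)).coeff n = (M' i).coeff (n % N2 i) * qc (K i) (n / N2 i) := by
  rw [M_succ, coeff_mul_expand (deg_M'_lt i), coeff_Q]

theorem M_succ_lt {i n : ℕ} (h : n < N1 i) : (M (i + 1)).coeff n = (M i).coeff n := by
  have h2 : n < N2 i := h.trans (N1_lt_N2 i)
  rw [M_succ_coeff, Nat.mod_eq_of_lt h2, Nat.div_eq_of_lt h2, qc_zero, mul_one, M'_lt h]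

/-- the function `φ` -/
def ph (n : ℕ) : ℝ := (M n).coeff n

theorem M_stable {i j n : ℕ} (hij : i ≤ j) (h : n < N1 i) : (M j).coeff n = (M i).coeff n := by
  induction j, hij using Nat.le_induction with
  | base => rfl
  | succ j hj ih => rw [M_succ_lt (h.trans_le (N1_mono.monotone hj)), ih]

theorem ph_eq {i n : ℕ} (h : n < N1 i) : ph n = (M i).coeff n := by
  unfold ph
  rcases le_total i n with h1 | h1
  · exact M_stable h1 h
  · exact (M_stable h1 ((lt_A n).trans (A_lt_N1 n))).symm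

theorem ph_dig {i n : ℕ} (h : n < N1 (i + 1)) :
    ph n = (M' i).coeff (n % N2 i) * qc (K i) (n / N2 i) := by
  rw [ph_eq h, M_succ_coeff]

theorem ph_lt {i n : ℕ} (h : n < N2 i) : ph n = (M' i).coeff n := by
  rw [ph_dig (i := i) (h.trans ((N2_le_A i).trans_lt (A_lt_N1 _))), Nat.mod_eq_of_lt h,
    Nat.div_eq_of_lt h, qc_zero, mul_one]

/-! ### The functions `u` -/

def uc (i n : ℕ) : ℝ := -(1 / β i) * gi i (n % N2 i) * ind (K i) (n / N2 i)

theorem uc_small {i n : ℕ} (h : n < N2 i) : uc i n = 0 := by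
  unfold uc; rw [Nat.div_eq_of_lt h, ind_zero, mul_zero]

theorem uc_large {i n : ℕ} (h : A (i + 1) ≤ n) : uc i n = 0 := by
  unfold uc
  rw [ind_large, mul_zero]
  rw [Nat.lt_iff_add_one_le]
  refine (Nat.le_div_iff_mul_le (N2_pos i)).2 (le_trans ?_ h)
  rw [A_succ]
  exact Nat.mul_le_mul_right _ (K_lt_R i)

/-- the coefficients of the kill polynomial without the first one -/
def qp (K l : ℕ) : ℝ := if l = 0 then 0 else qc K l

theorem qp_ind (K l : ℕ) : qc K l * ind K l = qp K l := by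
  unfold qp ind
  rcases Nat.eq_zero_or_pos l with h | h
  · simp [h]
  · rw [if_neg (by omega : ¬ l = 0)]
    by_cases h2 : l ≤ K
    · rw [if_pos ⟨h, h2⟩, mul_one]
    · rw [qc_large (by omega), zero_mul]

theorem qp_large {K l : ℕ} (h : K < l) : qp K l = 0 := by
  unfold qp
  rw [qc_large h]; simp

theorem abs_qp {K : ℕ} (hK : 2 ≤ K) (l : ℕ) : |qp K l| ≤ 4 / K := by
  unfold qp
  split_ifs with h
  · rw [abs_zero]; positivity
  · exact abs_qc hK (by omega)

/-- The product of `φ` and the shift of `u` by `m > 0` vanishes. -/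
theorem ph_uc_shift {i m : ℕ} (h1 : 1 ≤ m) (h2 : m < A i) (n : ℕ) : ph n * uc i (n + m) = 0 := by
  rcases le_or_gt (A (i + 1)) (n + m) with h | h
  · rw [uc_large h, mul_zero]
  have hn : n < N1 (i + 1) := by have := A_lt_N1 (i + 1); omega
  rw [ph_dig hn]
  have hN := N2_pos i
  have hs := Nat.mod_lt n hN
  rcases lt_or_ge (n % N2 i + m) (N2 i) with h3 | h3
  · have e1 : (n + m) % N2 i = n % N2 i + m := by
      rw [← Nat.mod_add_mod, Nat.mod_eq_of_lt h3]
    unfold uc
    rw [e1]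
    have key : (M' i).coeff (n % N2 i) * gi i (n % N2 i + m) = 0 := by
      rcases lt_or_ge (n % N2 i) (A i) with h4 | h4
      · rw [gi_small (by unfold N1; omega), mul_zero]
      · rw [M'_ge h4]
        unfold gi
        by_cases h5 : n % N2 i % N1 i = 0
        · have : ¬ (n % N2 i + m) % N1 i = 0 := by
            intro h6
            have h7 : N1 i ∣ m := (Nat.dvd_add_right (Nat.dvd_of_mod_eq_zero h5)).1
              (Nat.dvd_of_mod_eq_zero h6)
            have h8 := Nat.le_of_dvd h1 h7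
            have := A_lt_N1 i
            omega
          rw [if_neg this]; ring
        · rw [if_neg h5]; ring
    calc (M' i).coeff (n % N2 i) * qc (K i) (n / N2 i) *
          (-(1 / β i) * gi i (n % N2 i + m) * ind (K i) ((n + m) / N2 i))
        = ((M' i).coeff (n % N2 i) * gi i (n % N2 i + m)) *
            (qc (K i) (n / N2 i) * (-(1 / β i)) * ind (K i) ((n + m) / N2 i)) := by ring
      _ = 0 := by rw [key, zero_mul]
  · have h4 : (L i + 1) * N1 i ≤ n % N2 i := by
      have e1 := half_N2 i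
      have e2 := N1_lt_half i
      have e3 := A_lt_N1 i
      omega
    rw [M'_large h4]; ring

/-- The product of `φ` and `u`. -/
theorem ph_uc (i n : ℕ) :
    ph n * uc i n = -(1 / L i) * gi i (n % N2 i) * qp (K i) (n / N2 i) := by
  have hL : (L i : ℝ) ≠ 0 := by exact_mod_cast (L_pos i).ne'
  have hβ := (β_pos i).ne'
  rcases lt_or_ge n (N1 (i + 1)) with h | h
  · rw [ph_dig h]
    unfold uc
    have e := M'_mul_gi i (n % N2 i)
    calc (M' i).coeff (n % N2 i) * qc (K i) (n / N2 i) *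
          (-(1 / β i) * gi i (n % N2 i) * ind (K i) (n / N2 i))
        = ((M' i).coeff (n % N2 i) * gi i (n % N2 i)) * (-(1 / β i)) *
            (qc (K i) (n / N2 i) * ind (K i) (n / N2 i)) := by ring
      _ = -(1 / L i) * gi i (n % N2 i) * qp (K i) (n / N2 i) := by
          rw [e, qp_ind]; field_simp
  · have h1 : A (i + 1) ≤ n := (A_lt_N1 _).le.trans h
    rw [uc_large h1, mul_zero, qp_large, mul_zero]
    rw [Nat.lt_iff_add_one_le]
    refine (Nat.le_div_iff_mul_le (N2_pos i)).2 (le_trans ?_ h1)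
    rw [A_succ]
    exact Nat.mul_le_mul_right _ (K_lt_R i)

theorem sum_gi (i : ℕ) : ∑ n ∈ range (N2 i), gi i n = L i := by
  have e : N2 i = (2 * (L i + 1)) * N1 i := by rw [half_N2]; ring
  have h := digit_sum (fun r => if r = 0 then (1 : ℝ) else 0) (fun l => ind (L i) l) (N1_pos i)
    (2 * (L i + 1))
  rw [← e] at h
  have h2 : ∑ n ∈ range (N2 i), gi i n =
      ∑ n ∈ range (N2 i), (if n % N1 i = 0 then (1 : ℝ) else 0) * ind (L i) (n / N1 i) := rfl
  rw [h2, h, sum_ind (L i) (by omega), Finset.sum_ite_eq' (range (N1 i)) 0 (fun _ => (1 : ℝ)),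
    if_pos (mem_range.2 (N1_pos i)), one_mul]

/-- the fraction `y` -/
def yy (i r : ℕ) : ℝ := 1 / L i * ∑ n ∈ range r, gi i n

theorem yy_nonneg (i r : ℕ) : 0 ≤ yy i r := by
  unfold yy
  have : 0 ≤ ∑ n ∈ range r, gi i n := Finset.sum_nonneg fun n _ => gi_nonneg i n
  positivity

theorem yy_le {i r : ℕ} (h : r ≤ N2 i) : yy i r ≤ 1 := by
  unfold yy
  have hL : (0 : ℝ) < L i := by exact_mod_cast L_pos i
  have h1 : ∑ n ∈ range r, gi i n ≤ L i := by
    rw [← sum_gi i]
    apply Finset.sum_le_sum_of_subset_of_nonneg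
    · intro x hx; rw [mem_range] at *; omega
    · intro n _ _; exact gi_nonneg i n
  rw [one_div, inv_mul_le_iff₀ hL, mul_one]
  exact h1

/-- the partial sums -/
def W (i r m : ℕ) : ℝ := ∑ n ∈ range r, ph n * uc i (n + m)

theorem W_shift {i m : ℕ} (h1 : 1 ≤ m) (h2 : m < A i) (r : ℕ) : W i r m = 0 :=
  Finset.sum_eq_zero fun n _ => ph_uc_shift h1 h2 n

theorem W_eq (i k r : ℕ) (hr : r ≤ N2 i) :
    W i (k * N2 i + r) 0 = -(∑ l ∈ range k, qp (K i) l) - qp (K i) k * yy i r := by
  have hL : (L i : ℝ) ≠ 0 := by exact_mod_cast (L_pos i).ne'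
  have hN := N2_pos i
  unfold W
  simp only [add_zero]
  rw [Finset.sum_congr rfl (fun n _ => ph_uc i n), sum_blocks]
  have e1 : ∀ l s : ℕ, s < N2 i → (l * N2 i + s) % N2 i = s := fun l s hs => by
    rw [Nat.mul_add_mod', Nat.mod_eq_of_lt hs]
  have e2 : ∀ l s : ℕ, s < N2 i → (l * N2 i + s) / N2 i = l := fun l s hs => by
    rw [mul_comm, Nat.mul_add_div hN, Nat.div_eq_of_lt hs, add_zero]
  have h1 : ∀ l ∈ range k, ∑ s ∈ range (N2 i), -(1 / (L i : ℝ)) * gi i ((l * N2 i + s) % N2 i) *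
      qp (K i) ((l * N2 i + s) / N2 i) = - qp (K i) l := by
    intro l _
    have : ∑ s ∈ range (N2 i), -(1 / (L i : ℝ)) * gi i ((l * N2 i + s) % N2 i) *
        qp (K i) ((l * N2 i + s) / N2 i) = ∑ s ∈ range (N2 i), (-(1 / (L i : ℝ)) * qp (K i) l) * gi i s := by
      apply Finset.sum_congr rfl
      intro s hs
      rw [mem_range] at hs
      rw [e1 l s hs, e2 l s hs]; ring
    rw [this, ← Finset.mul_sum, sum_gi]
    field_simp
  have h2 : ∑ s ∈ range r, -(1 / (L i : ℝ)) * gi i ((k * N2 i + s) % N2 i) *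
      qp (K i) ((k * N2 i + s) / N2 i) = - qp (K i) k * yy i r := by
    have : ∑ s ∈ range r, -(1 / (L i : ℝ)) * gi i ((k * N2 i + s) % N2 i) *
        qp (K i) ((k * N2 i + s) / N2 i) = ∑ s ∈ range r, (-(1 / (L i : ℝ)) * qp (K i) k) * gi i s := by
      apply Finset.sum_congr rfl
      intro s hs
      rw [mem_range] at hs
      rw [e1 k s (by omega), e2 k s (by omega)]; ring
    rw [this, ← Finset.mul_sum]
    unfold yy
    ring
  rw [Finset.sum_congr rfl h1, h2, Finset.sum_neg_distrib]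
  ring

theorem sum_qp {K : ℕ} (hK : 2 ≤ K) {k : ℕ} (hk : K < k) : ∑ l ∈ range k, qp K l = -1 := by
  have h : ∑ l ∈ range k, qp K l = ∑ l ∈ range (K + 1), qp K l := by
    symm
    apply Finset.sum_subset
    · intro x hx; rw [mem_range] at *; omega
    · intro x _ hx; rw [mem_range] at hx; exact qp_large (by omega)
  rw [h, Finset.sum_range_succ']
  have e : ∀ l, qp K (l + 1) = qc K (l + 1) := fun l => by simp [qp]
  simp only [e]
  rw [sum_qc_succ hK]
  simp [qp]

theorem W_full {i r : ℕ} (hr : A (i + 1) ≤ r) : W i r 0 = 1 := by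
  have hN := N2_pos i
  have e : r = (r / N2 i) * N2 i + r % N2 i := by
    rw [mul_comm]; exact (Nat.div_add_mod r (N2 i)).symm
  have hk : K i < r / N2 i := by
    rw [Nat.lt_iff_add_one_le]
    refine (Nat.le_div_iff_mul_le hN).2 (le_trans ?_ hr)
    rw [A_succ]
    exact Nat.mul_le_mul_right _ (K_lt_R i)
  rw [e, W_eq i _ _ (Nat.mod_lt _ hN).le, sum_qp (two_le_K i) hk, qp_large hk]
  ring

theorem sum_abs_qp {K : ℕ} (hK : 2 ≤ K) (k : ℕ) : ∑ l ∈ range k, |qp K l| ≤ 4 := by
  have h0 : (0 : ℝ) < K := by positivity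
  have h : ∑ l ∈ range k, |qp K l| ≤ ∑ l ∈ range (K + 1), |qp K l| := by
    rcases le_total k (K + 1) with h1 | h1
    · apply Finset.sum_le_sum_of_subset_of_nonneg
      · intro x hx; rw [mem_range] at *; omega
      · intro n _ _; exact abs_nonneg _
    · apply le_of_eq
      symm
      apply Finset.sum_subset
      · intro x hx; rw [mem_range] at *; omega
      · intro x _ hx; rw [mem_range] at hx; rw [qp_large (by omega), abs_zero]
  refine h.trans ?_
  rw [Finset.sum_range_succ']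
  have e : |qp K 0| = 0 := by simp [qp]
  rw [e, add_zero]
  refine (Finset.sum_le_sum fun l _ => abs_qp hK (l + 1)).trans ?_
  rw [Finset.sum_const, card_range, nsmul_eq_mul]
  apply le_of_eq
  field_simp

theorem W_bound (i r : ℕ) : |W i r 0| ≤ 6 := by
  have hN := N2_pos i
  have e : r = (r / N2 i) * N2 i + r % N2 i := by
    rw [mul_comm]; exact (Nat.div_add_mod r (N2 i)).symm
  have hr := (Nat.mod_lt r hN).le
  rw [e, W_eq i _ _ hr]
  have h1 : |∑ l ∈ range (r / N2 i), qp (K i) l| ≤ 4 :=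
    (Finset.abs_sum_le_sum_abs _ _).trans (sum_abs_qp (two_le_K i) _)
  have h2 : |qp (K i) (r / N2 i) * yy i (r % N2 i)| ≤ 2 := by
    rw [abs_mul, abs_of_nonneg (yy_nonneg i _)]
    have h3 := abs_qp (two_le_K i) (r / N2 i)
    have h4 : (4 : ℝ) / K i ≤ 2 := by
      rw [div_le_iff₀ (by exact_mod_cast K_pos i)]
      have : (2 : ℝ) ≤ K i := by exact_mod_cast two_le_K i
      linarith
    have h5 := yy_le hr
    have h6 := yy_nonneg i (r % N2 i)
    have h7 := abs_nonneg (qp (K i) (r / N2 i))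
    nlinarith
  rw [abs_le] at *
  constructor <;> linarith [h1.1, h1.2, h2.1, h2.2]

end

end Pool.Agent.V5helper91.BR
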