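import Pool.Agent.V5helper91.BR.Test

/-!
# The counterexample and its transform
-/

set_option autoImplicit false

namespace Pool.Agent.V5helper91.BR

open scoped InnerProductSpace ComplexConjugate
open Finset Filter Polynomial

noncomputable section

/-- the sequence `φ` -/
def φc (n : ℕ) : ℂ := ((ph n : ℝ) : ℂ)

theorem tE_apply (t m : ℕ) :
    tE t m = ((∑ n ∈ range (A (t + 2)), ph n * ft t (m + n) : ℝ) : ℂ) := by
  unfold tE
  rw [op_real _ (natDegree_M (t + 2)) (ft t) (fE t) (fun n => rfl)]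
  congr 1
  apply Finset.sum_congr rfl
  intro n hn
  rw [mem_range] at hn
  rw [ph_eq (hn.trans (A_lt_N1 _))]

theorem tE_zero (t m : ℕ) (h : A (t + 2) ≤ m) : tE t m = 0 := by
  rw [tE_apply, Finset.sum_eq_zero, Complex.ofReal_zero]
  intro n _
  rw [ft_large (by omega), mul_zero]

theorem flip_sum (φ h g : ℕ → ℂ) (hφ : ∀ k, conj (φ k) = φ k) (D : ℕ)
    (hg : ∀ n, D ≤ n → g n = 0) :
    ∑ n ∈ range D, conj (cv φ h n) * g n =
      ∑ j ∈ range D, conj (h j) * ∑ k ∈ range D, φ k * g (j + k) := by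
  have h3 : ∀ n ∈ range D, conj (cv φ h n) * g n = ∑ k ∈ range (n + 1),
      (fun k j => φ k * conj (h j) * g (k + j)) k (n - k) := by
    intro n _
    unfold cv
    rw [map_sum, Finset.sum_mul]
    apply Finset.sum_congr rfl
    intro k hk
    rw [mem_range] at hk
    have e : k + (n - k) = n := by omega
    simp only [e]
    rw [map_mul, hφ]
  rw [Finset.sum_congr rfl h3,
    Finset.sum_range_diag_flip D (fun k j => φ k * conj (h j) * g (k + j))]
  have h4 : ∀ k ∈ range D, ∑ j ∈ range (D - k), φ k * conj (h j) * g (k + j) =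
      ∑ j ∈ range D, φ k * conj (h j) * g (k + j) := by
    intro k _
    apply Finset.sum_subset
    · intro x hx
      rw [mem_range] at *
      omega
    · intro x _ hx
      rw [mem_range] at hx
      rw [hg _ (by omega)]
      simp
  rw [Finset.sum_congr rfl h4, Finset.sum_comm]
  apply Finset.sum_congr rfl
  intro j _
  rw [Finset.mul_sum]
  apply Finset.sum_congr rfl
  intro k _
  rw [add_comm k j]
  ring

theorem inner_fE {y h : E} (hy : ∀ n, y n = cv φc h n) (t : ℕ) :
    ⟪y, fE t⟫_ℂ = ⟪h, tE t⟫_ℂ := by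
  have h1 : ⟪y, fE t⟫_ℂ = ∑ n ∈ range (A (t + 2)), conj (cv φc h n) * ((ft t n : ℝ) : ℂ) := by
    have : ∀ n ∉ range (A (t + 2)), conj (y n) * fE t n = 0 := fun n hn => by
      rw [mem_range] at hn
      rw [fE_apply, ft_large (by omega), Complex.ofReal_zero, mul_zero]
    rw [(inner_E y (fE t)).unique (hasSum_sum_of_ne_finset_zero this)]
    apply Finset.sum_congr rfl
    intro n _
    rw [hy]
    rfl
  have h2 : ⟪h, tE t⟫_ℂ = ∑ n ∈ range (A (t + 2)), conj (h n) *
      ∑ k ∈ range (A (t + 2)), φc k * ((ft t (n + k) : ℝ) : ℂ) := by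
    have : ∀ n ∉ range (A (t + 2)), conj (h n) * tE t n = 0 := fun n hn => by
      rw [mem_range] at hn
      rw [tE_zero _ _ (by omega), mul_zero]
    rw [(inner_E h (tE t)).unique (hasSum_sum_of_ne_finset_zero this)]
    apply Finset.sum_congr rfl
    intro n _
    rw [tE_apply]
    congr 1
    rw [Complex.ofReal_sum]
    apply Finset.sum_congr rfl
    intro k _
    rw [Complex.ofReal_mul]
    rfl
  rw [h1, h2]
  exact flip_sum φc h (fun n => ((ft t n : ℝ) : ℂ)) (fun k => Complex.conj_ofReal _) _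
    (fun n hn => by rw [ft_large hn, Complex.ofReal_zero])

theorem summable_norm_fE : Summable fun t => ‖fE t‖ :=
  Summable.of_nonneg_of_le (fun _ => norm_nonneg _) norm_fE
    (summable_geometric_two.mul_left _)

theorem summable_norm_tE : Summable fun t => ‖tE t‖ :=
  Summable.of_nonneg_of_le (fun _ => norm_nonneg _) norm_tE
    (summable_geometric_two.mul_left _)

/-- the counterexample -/
def FF : E := ∑' t, fE t

/-- its transform -/
def FP : E := ∑' t, tE t

theorem hasSum_fE : HasSum fE FF := summable_norm_fE.of_norm.hasSum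

theorem hasSum_tE : HasSum tE FP := summable_norm_tE.of_norm.hasSum

theorem norm_FP : ‖FP‖ ≤ 1 / 16 := by
  have h := hasSum_geometric_two.mul_left (1 / 32 : ℝ)
  have h2 := tsum_of_norm_bounded h norm_tE
  unfold FP
  linarith

theorem inner_FF (h y : E) (hy : ∀ n, y n = cv φc h n) : ⟪FF, y⟫_ℂ = ⟪FP, h⟫_ℂ := by
  have h1 : HasSum (fun t => ⟪y, fE t⟫_ℂ) ⟪y, FF⟫_ℂ := (innerSL ℂ y).hasSum hasSum_fE
  have h2 : HasSum (fun t => ⟪h, tE t⟫_ℂ) ⟪h, FP⟫_ℂ := (innerSL ℂ h).hasSum hasSum_tE
  have h3 : ⟪y, FF⟫_ℂ = ⟪h, FP⟫_ℂ := by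
    refine h1.unique ?_
    have : (fun t => ⟪y, fE t⟫_ℂ) = fun t => ⟪h, tE t⟫_ℂ := funext fun t => inner_fE hy t
    rw [this]
    exact h2
  rw [← inner_conj_symm, h3, inner_conj_symm]

end

end Pool.Agent.V5helper91.BR
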