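import Pool.Agent.V5helper91.BR.Op

/-!
# The testers
-/

set_option autoImplicit false

namespace Pool.Agent.V5helper91.BR

open scoped InnerProductSpace ComplexConjugate
open Finset Filter Polynomial

noncomputable section

/-! ### Real sequences with finite support -/

theorem sum_fin (g : ℕ → ℝ) {D : ℕ} (hg : ∀ n, D ≤ n → g n = 0) :
    HasSum (fun n => ‖((g n : ℝ) : ℂ)‖ ^ 2) (∑ n ∈ range D, g n ^ 2) := by
  have e : ∑ n ∈ range D, g n ^ 2 = ∑ n ∈ range D, ‖((g n : ℝ) : ℂ)‖ ^ 2 := by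
    apply Finset.sum_congr rfl
    intro n _
    rw [Complex.norm_real, Real.norm_eq_abs, sq_abs]
  rw [e]
  apply hasSum_sum_of_ne_finset_zero
  intro n hn
  rw [mem_range] at hn
  rw [hg n (by omega)]
  simp

/-- a real sequence with finite support as an element of `E` -/
def rE (g : ℕ → ℝ) (D : ℕ) (hg : ∀ n, D ≤ n → g n = 0) : E :=
  mkE (fun n => ((g n : ℝ) : ℂ)) (sum_fin g hg).summable

@[simp] theorem rE_apply (g : ℕ → ℝ) (D : ℕ) (hg : ∀ n, D ≤ n → g n = 0) (n : ℕ) :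
    rE g D hg n = ((g n : ℝ) : ℂ) := rfl

theorem norm_rE (g : ℕ → ℝ) (D : ℕ) (hg : ∀ n, D ≤ n → g n = 0) :
    ‖rE g D hg‖ ^ 2 = ∑ n ∈ range D, g n ^ 2 := by
  unfold rE
  rw [norm_mkE, (sum_fin g hg).tsum_eq]

theorem dg_zero (x y : ℕ → ℝ) {N D : ℕ} (hN : 0 < N) (hy : ∀ l, D ≤ l → y l = 0) (n : ℕ)
    (hn : D * N ≤ n) : x (n % N) * y (n / N) = 0 := by
  rw [hy _ ((Nat.le_div_iff_mul_le hN).2 hn), mul_zero]

theorem norm_dg (x y : ℕ → ℝ) {N D : ℕ} (hN : 0 < N)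
    (h : ∀ n, D * N ≤ n → x (n % N) * y (n / N) = 0) :
    ‖rE (fun n => x (n % N) * y (n / N)) (D * N) h‖ ^ 2 =
      (∑ s ∈ range N, x s ^ 2) * ∑ l ∈ range D, y l ^ 2 := by
  rw [norm_rE, ← digit_sum (fun s => x s ^ 2) (fun l => y l ^ 2) hN]
  apply Finset.sum_congr rfl
  intro n _
  rw [mul_pow]

theorem op_real (P : ℝ[X]) {D : ℕ} (hD : P.natDegree < D) (g : ℕ → ℝ) (x : E)
    (hx : ∀ n, x n = ((g n : ℝ) : ℂ)) (n : ℕ) :
    op P x n = ((∑ k ∈ range D, P.coeff k * g (n + k) : ℝ) : ℂ) := by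
  rw [op_apply P hD]
  push_cast
  apply Finset.sum_congr rfl
  intro k _
  rw [hx]

theorem expand_sum (P : ℝ[X]) {N : ℕ} (hN : 0 < N) (g : ℕ → ℝ) (D n : ℕ) :
    ∑ k ∈ range (D * N), (expand ℝ N P).coeff k * g (n + k) =
      ∑ l ∈ range D, P.coeff l * g (n + l * N) := by
  have h := sum_blocks (fun k => (expand ℝ N P).coeff k * g (n + k)) N D 0
  rw [add_zero] at h
  rw [h, Finset.sum_range_zero, add_zero]
  apply Finset.sum_congr rfl
  intro l _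
  rw [Finset.sum_eq_single 0]
  · rw [add_zero, coeff_expand hN, if_pos (Nat.dvd_mul_left N l), Nat.mul_div_cancel l hN]
  · intro s hs hs0
    rw [mem_range] at hs
    rw [coeff_expand hN, if_neg, zero_mul]
    intro h1
    have h2 : N ∣ s := (Nat.dvd_add_right (Nat.dvd_mul_left N l)).1 h1
    have := Nat.le_of_dvd (by omega) h2
    omega
  · intro h0
    exact absurd (mem_range.2 hN) h0

/-! ### The norm of `u` -/

theorem A_le_N2_succ (t : ℕ) : A (t + 1) ≤ N2 (t + 1) :=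
  (A_lt_N1 _).le.trans (N1_lt_N2 _).le

theorem N2_lt_succ (t : ℕ) : N2 t < N2 (t + 1) :=
  (N2_le_A t).trans_lt ((A_lt_N1 _).trans (N1_lt_N2 _))

theorem N2_mono : StrictMono N2 := strictMono_nat_of_lt_succ N2_lt_succ

theorem sum_uc_sq (t : ℕ) : ∑ n ∈ range (N2 (t + 1)), uc t n ^ 2 = 1 / (s t : ℝ) ^ 34 := by
  have hs : (s t : ℝ) ≠ 0 := by exact_mod_cast (s_pos t).ne'
  have h1 : ∑ n ∈ range (N2 (t + 1)), uc t n ^ 2 = ∑ n ∈ range (A (t + 1)), uc t n ^ 2 := by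
    symm
    apply Finset.sum_subset
    · intro x hx
      have := A_le_N2_succ t
      rw [mem_range] at *
      omega
    · intro x _ hx
      rw [mem_range] at hx
      rw [uc_large (by omega)]
      ring
  have h2 := digit_sum (fun r => gi t r) (fun l => ind (K t) l) (N2_pos t) (R t)
  rw [sum_gi, sum_ind (K t) (by have := K_lt_R t; omega)] at h2
  have h3 : ∑ n ∈ range (A (t + 1)), uc t n ^ 2 =
      (1 / β t) ^ 2 * ∑ n ∈ range (R t * N2 t), gi t (n % N2 t) * ind (K t) (n / N2 t) := by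
    rw [A_succ, Finset.mul_sum]
    apply Finset.sum_congr rfl
    intro n _
    unfold uc
    have e1 := gi_sq t (n % N2 t)
    have e2 := ind_sq (K t) (n / N2 t)
    calc (-(1 / β t) * gi t (n % N2 t) * ind (K t) (n / N2 t)) ^ 2
        = (1 / β t) ^ 2 * ((gi t (n % N2 t) * gi t (n % N2 t)) *
            (ind (K t) (n / N2 t) * ind (K t) (n / N2 t))) := by ring
      _ = _ := by rw [e1, e2]
  rw [h1, h3, h2]
  have e3 : (L t : ℝ) = (s t : ℝ) ^ 60 := by unfold L; push_cast; rfl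
  have e4 : (K t : ℝ) = (s t : ℝ) ^ 2 := by unfold K; push_cast; rfl
  have e5 : β t = (s t : ℝ) ^ 48 := rfl
  rw [e3, e4, e5]
  field_simp

/-! ### The testers -/

/-- the tester -/
def ft (t n : ℕ) : ℝ := uc t (n % N2 (t + 1)) * Fc (R (t + 1)) (n / N2 (t + 1))

theorem ft_small {t n : ℕ} (h : n < N2 (t + 1)) : ft t n = uc t n := by
  unfold ft
  rw [Nat.mod_eq_of_lt h, Nat.div_eq_of_lt h, Fc_zero (R_pos _), mul_one]

theorem ft_zero {t n : ℕ} (h : n < N2 t) : ft t n = 0 := by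
  rw [ft_small (h.trans (N2_lt_succ t)), uc_small h]

theorem ft_large' (t n : ℕ) (h : R (t + 1) * N2 (t + 1) ≤ n) : ft t n = 0 :=
  dg_zero (uc t) (Fc (R (t + 1))) (N2_pos _) (fun _ hl => Fc_large hl) n h

theorem ft_large {t n : ℕ} (h : A (t + 2) ≤ n) : ft t n = 0 := ft_large' t n h

/-- the tester as an element of `E` -/
def fE (t : ℕ) : E := rE (ft t) (R (t + 1) * N2 (t + 1)) (ft_large' t)

@[simp] theorem fE_apply (t n : ℕ) : fE t n = ((ft t n : ℝ) : ℂ) := rfl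

theorem norm_fE (t : ℕ) : ‖fE t‖ ≤ 2 ^ 15 * (1 / 2) ^ t := by
  have hs : (0 : ℝ) < s t := by exact_mod_cast s_pos t
  have h1 : ‖fE t‖ ^ 2 ≤ (2 ^ 16 / (s t : ℝ)) ^ 2 := by
    have h2 := norm_dg (uc t) (Fc (R (t + 1))) (N2_pos (t + 1))
      (D := R (t + 1)) (fun n hn => dg_zero (uc t) (Fc (R (t + 1))) (N2_pos _)
        (fun _ hl => Fc_large hl) n hn)
    have h3 : ‖fE t‖ ^ 2 = (∑ s ∈ range (N2 (t + 1)), uc t s ^ 2) *
        ∑ l ∈ range (R (t + 1)), Fc (R (t + 1)) l ^ 2 := h2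
    rw [h3, sum_uc_sq]
    have h4 : ∑ l ∈ range (R (t + 1)), Fc (R (t + 1)) l ^ 2 ≤ (R (t + 1) : ℝ) := by
      calc ∑ l ∈ range (R (t + 1)), Fc (R (t + 1)) l ^ 2
          ≤ ∑ l ∈ range (R (t + 1)), (1 : ℝ) := by
            apply Finset.sum_le_sum
            intro l _
            exact pow_le_one₀ (Fc_nonneg _ _) (Fc_le_one (R_pos _) _)
        _ = R (t + 1) := by simp
    have h5 : (R (t + 1) : ℝ) = 2 ^ 32 * (s t : ℝ) ^ 32 := by
      unfold R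
      rw [s_succ]
      push_cast
      ring
    calc 1 / (s t : ℝ) ^ 34 * ∑ l ∈ range (R (t + 1)), Fc (R (t + 1)) l ^ 2
        ≤ 1 / (s t : ℝ) ^ 34 * (2 ^ 32 * (s t : ℝ) ^ 32) := by
          rw [← h5]
          exact mul_le_mul_of_nonneg_left h4 (by positivity)
      _ = (2 ^ 16 / (s t : ℝ)) ^ 2 := by
          field_simp
  have h6 : ‖fE t‖ ≤ 2 ^ 16 / (s t : ℝ) := (sq_le_sq₀ (norm_nonneg _) (by positivity)).1 h1
  refine h6.trans (le_of_eq ?_)
  have e : (s t : ℝ) = 2 ^ (t + 1) := by unfold s; push_cast; rfl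
  rw [e, one_div, inv_pow, pow_succ]
  field_simp
  ring

/-! ### The correlations of the cut-off -/

/-- the correlation -/
def cor (t j : ℕ) : ℝ := ∑ l ∈ range (K (t + 1) + 1), qc (K (t + 1)) l * Fc (R (t + 1)) (j + l)

theorem cor_large (t j : ℕ) (h : R (t + 1) ≤ j) : cor t j = 0 := by
  unfold cor
  apply Finset.sum_eq_zero
  intro l _
  rw [Fc_large (by omega), mul_zero]

theorem cor_bound (t j : ℕ) : |cor t j| ≤ 8 * (K (t + 1) : ℝ) ^ 2 / (R (t + 1) : ℝ) ^ 2 := by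
  refine (corr_bound (two_le_K (t + 1)) (Fc (R (t + 1))) (Fc_second (R_pos (t + 1))) j).trans
    (le_of_eq ?_)
  ring

theorem op_Q_fE (t n : ℕ) : op (expand ℝ (N2 (t + 1)) (Q (K (t + 1)))) (fE t) n =
    ((uc t (n % N2 (t + 1)) * cor t (n / N2 (t + 1)) : ℝ) : ℂ) := by
  have hN := N2_pos (t + 1)
  have hd : (expand ℝ (N2 (t + 1)) (Q (K (t + 1)))).natDegree < (K (t + 1) + 1) * N2 (t + 1) := by
    rw [natDegree_expand]
    exact (Nat.mul_lt_mul_right hN).2 (Nat.lt_succ_of_le (natDegree_Q _))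
  rw [op_real _ hd (ft t) (fE t) (fun n => rfl), expand_sum _ hN]
  congr 1
  unfold cor
  rw [Finset.mul_sum]
  apply Finset.sum_congr rfl
  intro l _
  unfold ft
  rw [coeff_Q, Nat.add_mul_mod_self_right, Nat.add_mul_div_right _ _ hN]
  ring

/-- the first step of the transform -/
def gE (t : ℕ) : E := rE (fun n => uc t (n % N2 (t + 1)) * cor t (n / N2 (t + 1)))
  (R (t + 1) * N2 (t + 1)) (fun n hn => dg_zero (uc t) (cor t) (N2_pos _)
    (fun l hl => cor_large t l hl) n hn)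

theorem gE_eq (t : ℕ) : op (expand ℝ (N2 (t + 1)) (Q (K (t + 1)))) (fE t) = gE t :=
  ext_E fun n => op_Q_fE t n

theorem norm_gE (t : ℕ) : ‖gE t‖ ^ 2 ≤
    1 / (s t : ℝ) ^ 34 * (64 * (K (t + 1) : ℝ) ^ 4 / (R (t + 1) : ℝ) ^ 3) := by
  have hR : (0 : ℝ) < R (t + 1) := by exact_mod_cast R_pos (t + 1)
  have h1 : ‖gE t‖ ^ 2 = (∑ s ∈ range (N2 (t + 1)), uc t s ^ 2) *
      ∑ l ∈ range (R (t + 1)), cor t l ^ 2 := norm_dg _ _ (N2_pos _) _
  rw [h1, sum_uc_sq]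
  apply mul_le_mul_of_nonneg_left _ (by positivity)
  calc ∑ l ∈ range (R (t + 1)), cor t l ^ 2
      ≤ ∑ l ∈ range (R (t + 1)), (8 * (K (t + 1) : ℝ) ^ 2 / (R (t + 1) : ℝ) ^ 2) ^ 2 := by
        apply Finset.sum_le_sum
        intro l _
        rw [← sq_abs]
        exact pow_le_pow_left₀ (abs_nonneg _) (cor_bound t l) 2
    _ = 64 * (K (t + 1) : ℝ) ^ 4 / (R (t + 1) : ℝ) ^ 3 := by
        rw [Finset.sum_const, card_range, nsmul_eq_mul]
        field_simp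
        ring

/-- the transform of the tester -/
def tE (t : ℕ) : E := op (M (t + 2)) (fE t)

theorem tE_eq (t : ℕ) : tE t = op (M' (t + 1)) (gE t) := by
  unfold tE
  have : op (M (t + 2)) = op (M' (t + 1)) * op (expand ℝ (N2 (t + 1)) (Q (K (t + 1)))) := by
    rw [← op_mul]; rfl
  rw [this, ← gE_eq]
  rfl

theorem norm_tE (t : ℕ) : ‖tE t‖ ≤ 1 / 32 * (1 / 2) ^ t := by
  have hs : (0 : ℝ) < s t := by exact_mod_cast s_pos t
  have h0 := norm_gE t
  have hβ : β (t + 1) = 2 ^ 48 * (s t : ℝ) ^ 48 := by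
    unfold β
    rw [s_succ]
    push_cast
    ring
  have hK : (K (t + 1) : ℝ) = 4 * (s t : ℝ) ^ 2 := by
    unfold K
    rw [s_succ]
    push_cast
    ring
  have hR : (R (t + 1) : ℝ) = 2 ^ 32 * (s t : ℝ) ^ 32 := by
    unfold R
    rw [s_succ]
    push_cast
    ring
  have h1 : ‖tE t‖ ≤ 2 * β (t + 1) * ‖gE t‖ := by
    rw [tE_eq]
    exact (ContinuousLinearMap.le_opNorm _ _).trans
      (mul_le_mul_of_nonneg_right (norm_op_M' (t + 1)) (norm_nonneg _))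
  have h2 : ‖tE t‖ ^ 2 ≤ (2 ^ 8 / (s t : ℝ) ^ 13) ^ 2 := by
    calc ‖tE t‖ ^ 2 ≤ (2 * β (t + 1) * ‖gE t‖) ^ 2 := pow_le_pow_left₀ (norm_nonneg _) h1 2
      _ = (2 * β (t + 1)) ^ 2 * ‖gE t‖ ^ 2 := by ring
      _ ≤ (2 * β (t + 1)) ^ 2 *
          (1 / (s t : ℝ) ^ 34 * (64 * (K (t + 1) : ℝ) ^ 4 / (R (t + 1) : ℝ) ^ 3)) :=
          mul_le_mul_of_nonneg_left h0 (sq_nonneg _)
      _ = (2 ^ 8 / (s t : ℝ) ^ 13) ^ 2 := by
          rw [hβ, hK, hR]
          field_simp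
          norm_num
  have h3 : ‖tE t‖ ≤ 2 ^ 8 / (s t : ℝ) ^ 13 := (sq_le_sq₀ (norm_nonneg _) (by positivity)).1 h2
  refine h3.trans ?_
  have e : (s t : ℝ) = 2 ^ (t + 1) := by unfold s; push_cast; rfl
  have e2 : (2 : ℝ) ^ ((t + 1) * 13) = 2 ^ 13 * (2 ^ (12 * t) * 2 ^ t) := by
    rw [← pow_add, ← pow_add]
    congr 1
    ring
  have e3 : (1 : ℝ) ≤ 2 ^ (12 * t) := one_le_pow₀ (by norm_num)
  rw [e, ← pow_mul, one_div_pow, e2, div_le_iff₀ (by positivity)]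
  have e4 : 1 / 32 * (1 / (2 : ℝ) ^ t) * (2 ^ 13 * (2 ^ (12 * t) * 2 ^ t)) =
      2 ^ 8 * 2 ^ (12 * t) := by
    field_simp
    norm_num
  rw [e4]
  nlinarith

end

end Pool.Agent.V5helper91.BR
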